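import Pool.Agent.W76.MO.Asm5

/-!
# Completely multiplicative functions given by their values at the primes
-/

set_option autoImplicit false

namespace Pool.Agent.U317.CM

open Finset
open scoped Classical
open Pool.Agent.W76.MO

/-- the completely multiplicative function with the values `x p` at the primes -/
noncomputable def cm (x : ℕ → ℝ) (n : ℕ) : ℝ := n.factorization.prod fun p k => x p ^ k

lemma cm_one (x : ℕ → ℝ) : cm x 1 = 1 := by
  unfold cm
  rw [Nat.factorization_one, Finsupp.prod_zero_index]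

lemma cm_mul (x : ℕ → ℝ) {a b : ℕ} (ha : a ≠ 0) (hb : b ≠ 0) :
    cm x (a * b) = cm x a * cm x b := by
  unfold cm
  rw [Nat.factorization_mul ha hb]
  exact Finsupp.prod_add_index' (fun p => pow_zero _) (fun p k l => pow_add _ _ _)

lemma cm_prime (x : ℕ → ℝ) {p : ℕ} (hp : p.Prime) : cm x p = x p := by
  unfold cm
  rw [hp.factorization]
  exact (Finsupp.prod_single_index (h := fun p k => x p ^ k) (pow_zero _)).trans (pow_one _)

lemma cm_eq (x : ℕ → ℝ) (n : ℕ) :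
    cm x n = ∏ p ∈ n.primeFactors, x p ^ n.factorization p := rfl

lemma cm_squarefree (x : ℕ → ℝ) {n : ℕ} (hn : Squarefree n) :
    cm x n = ∏ p ∈ n.primeFactors, x p := by
  rw [cm_eq]
  refine prod_congr rfl fun p hp => ?_
  have h1 := hn.natFactorization_le_one p
  have h2 : n.factorization p ≠ 0 := by
    rw [← Finsupp.mem_support_iff]
    exact hp
  have h3 : n.factorization p = 1 := by omega
  rw [h3, pow_one]

lemma cm_nonneg (x : ℕ → ℝ) (n : ℕ) (hx : ∀ p ∈ n.primeFactors, 0 ≤ x p) : 0 ≤ cm x n := by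
  rw [cm_eq]
  exact prod_nonneg fun p hp => pow_nonneg (hx p hp) _

lemma cm_le (x y : ℕ → ℝ) (n : ℕ) (hx : ∀ p ∈ n.primeFactors, 0 ≤ x p)
    (hxy : ∀ p ∈ n.primeFactors, x p ≤ y p) : cm x n ≤ cm y n := by
  rw [cm_eq, cm_eq]
  exact Finset.prod_le_prod (fun p hp => pow_nonneg (hx p hp) _)
    fun p hp => pow_le_pow_left₀ (hx p hp) (hxy p hp) _

lemma cm_congr (x y : ℕ → ℝ) (n : ℕ) (hxy : ∀ p ∈ n.primeFactors, x p = y p) :
    cm x n = cm y n := by
  rw [cm_eq, cm_eq]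
  exact prod_congr rfl fun p hp => by rw [hxy p hp]

lemma one_le_cm (x : ℕ → ℝ) (n : ℕ) (hx : ∀ p ∈ n.primeFactors, 1 ≤ x p) : 1 ≤ cm x n := by
  rw [cm_eq]
  have h : ∀ s : Finset ℕ, s ⊆ n.primeFactors → 1 ≤ ∏ p ∈ s, x p ^ n.factorization p := by
    intro s
    induction s using Finset.induction_on with
    | empty => intro _; simp
    | insert a s ha ih =>
      intro hs
      rw [prod_insert ha]
      have h1 := ih ((subset_insert a s).trans hs)
      have h2 : 1 ≤ x a ^ n.factorization a := one_le_pow₀ (hx a (hs (mem_insert_self a s)))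
      nlinarith
  exact h _ Subset.rfl

lemma cm_abs (x : ℕ → ℝ) (n : ℕ) : |cm x n| = cm (fun p => |x p|) n := by
  rw [cm_eq, cm_eq, Finset.abs_prod]
  exact prod_congr rfl fun p _ => abs_pow _ _

lemma cm_prod_mul (x y : ℕ → ℝ) (n : ℕ) : cm (fun p => x p * y p) n = cm x n * cm y n := by
  rw [cm_eq, cm_eq, cm_eq, ← prod_mul_distrib]
  exact prod_congr rfl fun p _ => mul_pow _ _ _

lemma cm_const_one (n : ℕ) : cm (fun _ => 1) n = 1 := by
  rw [cm_eq]
  exact prod_eq_one fun p _ => one_pow _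

lemma cm_id {n : ℕ} (hn : n ≠ 0) : cm (fun p => (p : ℝ)) n = n := by
  have h := Nat.prod_factorization_pow_eq_self hn
  have h2 : ((n.factorization.prod (fun p k => p ^ k) : ℕ) : ℝ) = n := by rw [h]
  rw [← h2]
  unfold cm Finsupp.prod
  push_cast
  rfl

lemma cm_rpow (θ : ℝ) {n : ℕ} (hn : n ≠ 0) : cm (fun p => (p : ℝ) ^ θ) n = (n : ℝ) ^ θ := by
  rw [← cm_id hn, cm_eq, cm_eq, ← Real.finsetProd_rpow _ _ (fun p _ => by positivity)]
  refine prod_congr rfl fun p _ => ?_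
  rw [← Real.rpow_natCast, ← Real.rpow_natCast, ← Real.rpow_mul (by positivity),
    ← Real.rpow_mul (by positivity), mul_comm]

lemma cm_inv {n : ℕ} (hn : n ≠ 0) : cm (fun p => 1 / (p : ℝ)) n = 1 / (n : ℝ) := by
  have h : cm (fun p => 1 / (p : ℝ)) n * n = 1 := by
    rw [show (n : ℝ) = cm (fun p => (p : ℝ)) n from (cm_id hn).symm, ← cm_prod_mul,
      cm_congr _ (fun _ => 1) n, cm_const_one]
    intro p hp
    have : (p : ℝ) ≠ 0 := by exact_mod_cast (Nat.prime_of_mem_primeFactors hp).ne_zero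
    field_simp
  have hn0 : (n : ℝ) ≠ 0 := by exact_mod_cast hn
  field_simp
  exact h

/-- Lipschitz estimate for completely multiplicative functions -/
lemma cm_lip (x x' y G : ℕ → ℝ) (ε : ℝ) (hε : 0 ≤ ε) (hy : ∀ p, 0 ≤ y p) (hG : ∀ p, 0 ≤ G p)
    (hx : ∀ p, |x p| ≤ y p + G p) (hx' : ∀ p, |x' p| ≤ y p + G p)
    (hxx : ∀ p, |x p - x' p| ≤ ε * G p) (n : ℕ) (hn : n ≠ 0) :
    |cm x n| ≤ cm (fun p => y p + G p) n ∧
    |cm x n - cm x' n| ≤ ε * cm (fun p => y p + 2 * G p) n := by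
  have hb : ∀ z : ℕ → ℝ, (∀ p, |z p| ≤ y p + G p) → ∀ m : ℕ, |cm z m| ≤ cm (fun p => y p + G p) m := by
    intro z hz m
    rw [cm_abs]
    exact cm_le _ _ m (fun p _ => abs_nonneg _) fun p _ => hz p
  refine ⟨hb x hx n, ?_⟩
  induction n using induction_on_primes with
  | zero => exact absurd rfl hn
  | one =>
    rw [cm_one, cm_one, cm_one, sub_self, abs_zero]
    linarith
  | prime_mul p a hp ih =>
    by_cases ha : a = 0
    · rw [ha, mul_zero] at hn
      exact absurd rfl hn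
    have h1 := ih ha
    rw [cm_mul x hp.ne_zero ha, cm_mul x' hp.ne_zero ha, cm_mul _ hp.ne_zero ha, cm_prime x hp,
      cm_prime x' hp, cm_prime _ hp]
    have e : x p * cm x a - x' p * cm x' a = (x p - x' p) * cm x a + x' p * (cm x a - cm x' a) := by
      ring
    rw [e]
    refine (abs_add_le _ _).trans ?_
    rw [abs_mul, abs_mul]
    have h2 : |x p - x' p| * |cm x a| ≤ (ε * G p) * cm (fun p => y p + G p) a :=
      mul_le_mul (hxx p) (hb x hx a) (abs_nonneg _) (mul_nonneg hε (hG p))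
    have h3 : |x' p| * |cm x a - cm x' a| ≤ (y p + G p) * (ε * cm (fun p => y p + 2 * G p) a) :=
      mul_le_mul (hx' p) h1 (abs_nonneg _) (add_nonneg (hy p) (hG p))
    have h4 : cm (fun p => y p + G p) a ≤ cm (fun p => y p + 2 * G p) a :=
      cm_le _ _ a (fun p _ => add_nonneg (hy p) (hG p)) fun p _ => by linarith [hG p]
    have h5 : (ε * G p) * cm (fun p => y p + G p) a ≤ (ε * G p) * cm (fun p => y p + 2 * G p) a :=
      mul_le_mul_of_nonneg_left h4 (mul_nonneg hε (hG p))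
    show _ ≤ ε * ((y p + 2 * G p) * cm (fun p => y p + 2 * G p) a)
    nlinarith

/-! ### the weight -/

variable (E : Env)

/-- the completely multiplicative weight `∏ (1 + 2 p g(p))` -/
noncomputable def Wc (j n : ℕ) : ℝ := cm (fun p => 1 + 2 * (p * E.g j p)) n

lemma Wc_squarefree (j : ℕ) {n : ℕ} (hn : Squarefree n) : Wc E j n = E.E2 j n :=
  cm_squarefree _ hn

lemma Wc_mul (j : ℕ) {a b : ℕ} (ha : a ≠ 0) (hb : b ≠ 0) :
    Wc E j (a * b) = Wc E j a * Wc E j b := cm_mul _ ha hb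

lemma Wc_one (j : ℕ) : Wc E j 1 = 1 := cm_one _

lemma one_le_Wc (j n : ℕ) (hg : ∀ p, 0 ≤ E.g j p) : 1 ≤ Wc E j n :=
  one_le_cm _ n fun p _ => by
    have := mul_nonneg (Nat.cast_nonneg (α := ℝ) p) (hg p)
    linarith

lemma Wc_le (j : ℕ) (hg : ∀ p, 0 ≤ E.g j p)
    (hf : ∀ p : ℕ, p.Prime → 1 + 2 * (p * E.g j p) ≤ (p : ℝ) ^ (9 * E.δ)) {n : ℕ} (hn : n ≠ 0) :
    Wc E j n ≤ (n : ℝ) ^ (9 * E.δ) := by
  rw [← cm_rpow _ hn]
  refine cm_le _ _ n (fun p _ => ?_) fun p hp => hf p (Nat.prime_of_mem_primeFactors hp)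
  have := mul_nonneg (Nat.cast_nonneg (α := ℝ) p) (hg p)
  linarith

lemma Wc_div_eq (j : ℕ) {n : ℕ} (hn : n ≠ 0) :
    Wc E j n / n = cm (fun p => 1 / (p : ℝ) + 2 * E.g j p) n := by
  have h1 : cm (fun p => 1 / (p : ℝ) + 2 * E.g j p) n =
      cm (fun p => (1 / (p : ℝ)) * (1 + 2 * (p * E.g j p))) n := by
    refine cm_congr _ _ n fun p hp => ?_
    have : (p : ℝ) ≠ 0 := by exact_mod_cast (Nat.prime_of_mem_primeFactors hp).ne_zero
    field_simp
  rw [h1, cm_prod_mul, cm_inv hn]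
  unfold Wc
  ring

end Pool.Agent.U317.CM
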