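import Pool.Agent.U317.CM.C9

/-!
# Solution of the completely multiplicative system
-/

set_option autoImplicit false

namespace Pool.Agent.U317.CM

open Finset
open scoped Classical
open Pool.Agent.W76.MO
open Pool.Agent.W76.MO.Env (tau mass big point w_pos fz fz_bound gz gz_le gz_sub gz_host gz_good
  gz_first host_lip prime_lip harm_le)

variable (E : Env)

lemma fc_zero (j n : ℕ) (hu : ∀ p, 0 ≤ E.gu j p) (hn : n ≠ 0) :
    |fc E j 0 n| = 1 / (n : ℝ) := by
  have h0 : ∀ p, E.gz j 0 p = 0 := fun p => by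
    have := E.gz_le j 0 0 (fun i => by simp) hu p
    rw [zero_mul] at this
    exact abs_eq_zero.1 (le_antisymm this (abs_nonneg _))
  unfold fc
  rw [cm_abs, ← cm_inv hn]
  refine cm_congr _ _ n fun p _ => ?_
  rw [h0, zero_sub, abs_neg, abs_of_nonneg (by positivity)]

/-- Lipschitz estimate at the primes of the first block -/
lemma prime_lip0 (j p : ℕ) (hp : p.Prime) (z z' : ℕ × ℕ → ℝ) (x : ℕ × ℕ) (W ε : ℝ)
    (hz : ∀ y : ℕ × ℕ → ℝ, E.gz j y p = y x * W) (hg : E.g j p = W) :
    |fc E j z p - fc E j z' p - (z x - z' x) * W| ≤ ε * (t0 E j p - W) := by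
  have h1 : t0 E j p = W := by
    unfold t0
    rw [hp.primeFactors, sum_singleton, Nat.div_self hp.pos, hg]
    simp
  have h2 : fc E j z p - fc E j z' p = (z x - z' x) * W := by
    unfold fc
    rw [cm_prime _ hp, cm_prime _ hp, hz, hz]
    ring
  rw [h1, h2, sub_self, sub_self, abs_zero, mul_zero]

theorem system (hGB : E.GBounds) (hHC : E.HCount)
    (hKey : ∃ R₀ : ℕ, ∀ R : ℕ, R₀ ≤ R → ∃ J : ℕ, ∀ j : ℕ, J ≤ j → KeyC E R j) :
    ∃ (R j : ℕ) (z : ℕ × ℕ → ℝ), (∀ x, |z x| ≤ 1) ∧ 2 ≤ R ∧ 10 ≤ j ∧ KeyC E R j ∧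
      ∑ n ∈ A0c R j, fc E j z n = 0 ∧
      ∀ i k : ℕ, j ≤ i → k < nc E.δ i → ∑ n ∈ csc E R i k, fc E j z n = 0 := by
  obtain ⟨R₀, hKey⟩ := hKey
  set R := max R₀ 2 with hR
  obtain ⟨J1, hKey⟩ := hKey R (le_max_left _ _)
  obtain ⟨J2, hJ2, hfirst⟩ := t0_first E hGB R
  obtain ⟨J3, hHC⟩ := hHC
  obtain ⟨J4, hJ4⟩ := ge_of_rpow_ge E.τ E.hτ R
  obtain ⟨J5, hJ5, hGB⟩ := hGB
  set j := J1 + J2 + J3 + J4 + J5 + R + 10 with hj
  have hKj := hKey j (by omega)
  obtain ⟨hUBne, hUBp, hlarge, htau1⟩ := hfirst j (by omega)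
  obtain ⟨hUB, hu0, hh0, hgu, hgh, hguU, hghq, hsum1, hsum2⟩ := hGB j (by omega)
  have hj1 : 1 ≤ j := by omega
  have hjr : (1 : ℝ) ≤ j := by exact_mod_cast hj1
  have hRj : R ≤ 2 ^ (j - 1) := by
    have h1 : R ≤ j - 1 := by omega
    exact h1.trans (Nat.lt_two_pow_self).le
  -- the system
  let F : (ℕ × ℕ → ℝ) → ℕ × ℕ → ℝ := fun z x =>
    if x = (j - 1, 0) then ∑ n ∈ A0c R j, fc E j z n
    else if j ≤ x.1 ∧ x.2 < nc E.δ x.1 then ∑ n ∈ csc E R x.1 x.2, fc E j z n
    else z x
  let W : ℕ × ℕ → ℝ := fun x =>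
    if x = (j - 1, 0) then 8 * j else if j ≤ x.1 ∧ x.2 < nc E.δ x.1 then E.w x.1 else 1
  have hW : ∀ x, 0 < W x := by
    intro x
    simp only [W]
    split_ifs with h1 h2
    · positivity
    · exact E.w_pos _ (hj1.trans h2.1)
    · norm_num
  have hcssq : ∀ i k n, n ∈ E.cs R i k → Squarefree n := fun i k n hn => by
    unfold Env.cs at hn
    exact (mem_filter.1 hn).2.1
  have hns : ∀ i k n, n ∈ NSc E R i k → ¬ Squarefree n ∧ n ≠ 0 := fun i k n hn => by
    unfold NSc at hn
    rw [mem_filter] at hn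
    refine ⟨hn.2.1, ?_⟩
    have h1 := hn.1
    unfold cell at h1
    rw [mem_Ioc] at h1
    intro h0
    rw [h0] at h1
    exact Nat.not_lt_zero _ h1.1
  -- the Lipschitz coefficients of a cell
  let T : ℕ → ℝ := fun n => if Squarefree n then E.tau j n else Wc E j n / n
  have hT : ∀ i k : ℕ, j ≤ i → k < nc E.δ i → ∑ n ∈ csc E R i k, T n ≤ E.w i + E.w i / 4 := by
    intro i k hi hk
    rw [sum_csc]
    have h1 : ∑ n ∈ E.cs R i k, T n = ∑ n ∈ E.cs R i k, E.tau j n :=
      sum_congr rfl fun n hn => if_pos (hcssq i k n hn)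
    have h2 : ∑ n ∈ NSc E R i k, T n = ∑ n ∈ NSc E R i k, Wc E j n / n :=
      sum_congr rfl fun n hn => if_neg (hns i k n hn).1
    rw [h1, h2]
    have h3 := hKj.tau_cell i k hi hk
    have h4 := hKj.ns_cell i k hi hk
    linarith
  have hTlip : ∀ (z z' : ℕ × ℕ → ℝ) (ε : ℝ), (∀ i, |z i| ≤ 1) → (∀ i, |z' i| ≤ 1) →
      (∀ i, |z i - z' i| ≤ ε) → ∀ i k n, n ∈ csc E R i k →
        |fc E j z n - fc E j z' n| ≤ ε * T n := by
    intro z z' ε hz hz' hzz i k n hn
    have hn0 : n ≠ 0 := by
      unfold csc cell at hn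
      rw [mem_filter, mem_Ioc] at hn
      intro h0
      rw [h0] at hn
      exact Nat.not_lt_zero _ hn.1.1
    by_cases hsq : Squarefree n
    · simp only [T, if_pos hsq]
      rw [fc_sqf E j z hsq, fc_sqf E j z' hsq]
      exact (E.fz_bound j n z z' ε hu0 hz hz' hzz hsq).2
    · simp only [T, if_neg hsq]
      exact (fc_bound E j n z z' ε hu0 hh0 hz hz' hzz hn0).2
  obtain ⟨z, hz1, hz0⟩ := solve F W hW (by
    intro x
    simp only [F, W]
    split_ifs with h1 h2
    · calc |∑ n ∈ A0c R j, fc E j 0 n| ≤ ∑ n ∈ A0c R j, |fc E j 0 n| := abs_sum_le_sum_abs _ _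
        _ = ∑ n ∈ A0c R j, 1 / (n : ℝ) := sum_congr rfl fun n hn => fc_zero E j n hu0 (by
            unfold A0c at hn
            rw [mem_filter, mem_Icc] at hn
            omega)
        _ ≤ ∑ n ∈ Icc (1 : ℕ) (2 ^ j), 1 / (n : ℝ) := by
            apply sum_le_sum_of_subset_of_nonneg (filter_subset _ _)
            intro n _ _
            positivity
        _ ≤ 1 + j := harm_le j
        _ ≤ 8 * j / 4 := by linarith
    · have hw := E.w_nonneg x.1
      calc |∑ n ∈ csc E R x.1 x.2, fc E j 0 n| ≤ ∑ n ∈ csc E R x.1 x.2, |fc E j 0 n| :=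
            abs_sum_le_sum_abs _ _
        _ = ∑ n ∈ E.cs R x.1 x.2, |fc E j 0 n| + ∑ n ∈ NSc E R x.1 x.2, |fc E j 0 n| :=
            sum_csc E R x.1 x.2 _
        _ ≤ ∑ n ∈ E.cs R x.1 x.2, 1 / (n : ℝ) + ∑ n ∈ NSc E R x.1 x.2, Wc E j n / n := by
            apply add_le_add
            · exact sum_le_sum fun n hn => (fc_zero E j n hu0 (hcssq _ _ n hn).ne_zero).le
            · exact sum_le_sum fun n hn => (fc_bound E j n 0 0 0 hu0 hh0 (fun i => by simp)
                (fun i => by simp) (fun i => by simp) (hns _ _ n hn).2).1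
        _ ≤ E.w x.1 / 16 + E.w x.1 / 16 :=
            add_le_add (hKj.inv_cell x.1 x.2 h2.1 h2.2) (hKj.ns_cell x.1 x.2 h2.1 h2.2)
        _ ≤ E.w x.1 / 4 := by linarith
    · simp) (by
    intro z z' ε hz hz' hzz x
    have hε : 0 ≤ ε := (abs_nonneg _).trans (hzz (0, 0))
    simp only [F, W]
    split_ifs with h1 h2
    · -- the first block
      subst h1
      have hsub : E.UB j ⊆ A0c R j := by
        intro p hp
        have hpp := hUBp p hp
        unfold Env.UB at hp
        rw [mem_filter, mem_Ioc] at hp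
        unfold A0c
        rw [mem_filter, mem_Icc]
        refine ⟨⟨hpp.one_le, hp.1.2⟩, ?_⟩
        intro q hq hqp
        have : q = p := (Nat.prime_dvd_prime_iff_eq hq hpp).1 hqp
        subst this
        have : R ≤ q := by omega
        exact_mod_cast this
      have h := lip_sum (A0c R j) (E.UB j) hsub hUBne (fc E j z) (fc E j z') (t0 E j) ε (8 * j)
        (z (j - 1, 0) - z' (j - 1, 0))
        (fun n hn _ => first_lip E R j n (by omega) z z' ε hu0 hh0 hz hz' hzz hlarge hn)
        (fun p hp => prime_lip0 E j p (hUBp p hp) z z' (j - 1, 0) _ ε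
          (fun y => (E.gz_first j y (fun q hq => (hgh q hq).2.1) p hp).1)
          (E.gz_first j z (fun q hq => (hgh q hq).2.1) p hp).2)
      refine h.trans (mul_le_mul_of_nonneg_left ?_ hε)
      linarith
    · -- a cell
      obtain ⟨i, k⟩ := x
      simp only at h2 ⊢
      obtain ⟨hji, hk⟩ := h2
      have htau := hT i k hji hk
      have hi1 : 1 ≤ i := hj1.trans hji
      have hir : (0 : ℝ) < i := by exact_mod_cast hi1
      have hhpos : (0 : ℝ) < hh E.δ i := by exact_mod_cast hh_pos E.δ i
      have hRi : R ≤ 2 ^ i := by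
        refine hRj.trans (Nat.pow_le_pow_right (by norm_num) (by omega))
      by_cases hkb : k ∈ E.Bad i
      · -- bad cell
        have hne : (E.Host j i k).Nonempty := by
          rw [← Finset.card_pos]
          have h3 := hHC j (by omega) i hji k hkb
          have h4 : 0 < E.cH / 2 * hh E.δ i / i := by
            have := E.hcH
            positivity
          exact_mod_cast h4.trans_le h3
        have hsub : E.Host j i k ⊆ csc E R i k := by
          intro n hn
          unfold Env.Host at hn
          rw [mem_filter] at hn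
          unfold csc
          rw [mem_filter]
          refine ⟨hn.1, ?_⟩
          intro p hp hpn
          exact (hJ4 i (by omega)).trans (hn.2.2.2.2.1 p hp hpn)
        have h := lip_sum (csc E R i k) (E.Host j i k) hsub hne (fc E j z) (fc E j z') T ε
          (E.w i) (z (i, k) - z' (i, k))
          (fun n hn _ => hTlip z z' ε hz hz' hzz i k n hn)
          (fun n hn => by
            have hsqn : Squarefree n := by
              unfold Env.Host at hn
              rw [mem_filter] at hn
              exact hn.2.2.2.1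
            simp only [T, if_pos hsqn]
            rw [fc_sqf E j z hsqn, fc_sqf E j z' hsqn]
            exact E.host_lip j z z' ε hu0 hgu (fun q hq => (hgh q hq).1) hz hz' hzz i k n hji hkb hn)
        refine h.trans (mul_le_mul_of_nonneg_left ?_ hε)
        linarith
      · -- good cell
        have hcard : 0 < (((cell E.δ i k).filter E.isU).card : ℝ) := by
          have h3 : ¬ ((((cell E.δ i k).filter E.isU).card : ℝ) < E.cU * hh E.δ i / (i : ℝ) ^ 4) := by
            intro h3
            apply hkb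
            unfold Env.Bad
            rw [mem_filter, mem_range]
            exact ⟨hk, h3⟩
          rw [not_lt] at h3
          have := E.hcU
          exact lt_of_lt_of_le (by positivity) h3
        have hne : ((cell E.δ i k).filter E.isU).Nonempty := by
          rw [← Finset.card_pos]
          exact_mod_cast hcard
        have hpr : ∀ p ∈ (cell E.δ i k).filter E.isU, p.Prime := fun p hp =>
          E.u_prime p (mem_filter.1 hp).2
        have hsub : (cell E.δ i k).filter E.isU ⊆ csc E R i k := by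
          intro p hp
          have hpp := hpr p hp
          rw [mem_filter] at hp
          unfold csc
          rw [mem_filter]
          refine ⟨hp.1, ?_⟩
          intro q hq hqp
          have : q = p := (Nat.prime_dvd_prime_iff_eq hq hpp).1 hqp
          subst this
          have h4 := (cell_loc E.δ E.hδ i k q hk hp.1).1
          have : R ≤ q := by omega
          exact_mod_cast this
        have h := lip_sum (csc E R i k) ((cell E.δ i k).filter E.isU) hsub hne (fc E j z) (fc E j z')
          T ε (E.w i) (z (i, k) - z' (i, k))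
          (fun n hn _ => hTlip z z' ε hz hz' hzz i k n hn)
          (fun p hp => by
            have hp' := mem_filter.1 hp
            have hsqp := (hpr p hp).squarefree
            simp only [T, if_pos hsqp]
            rw [fc_sqf E j z hsqp, fc_sqf E j z' hsqp]
            exact E.prime_lip j p (hpr p hp) z z' (i, k) _ ε
              (fun y => (E.gz_good j y (fun q hq => (hgh q hq).2.1) hh0 i k p hji hk hkb hp'.1 hp'.2).1)
              (E.gz_good j z (fun q hq => (hgh q hq).2.1) hh0 i k p hji hk hkb hp'.1 hp'.2).2)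
        refine h.trans (mul_le_mul_of_nonneg_left ?_ hε)
        linarith
    · simp only [one_mul, sub_self, abs_zero]
      positivity)
  refine ⟨R, j, z, hz1, le_max_right _ _, by omega, hKj, ?_, ?_⟩
  · have h := hz0 (j - 1, 0)
    simp only [F] at h
    simpa using h
  · intro i k hi hk
    have h := hz0 (i, k)
    simp only [F] at h
    have hne : ¬ ((i, k) : ℕ × ℕ) = (j - 1, 0) := by
      intro h1
      have : i = j - 1 := (Prod.ext_iff.1 h1).1
      omega
    rw [if_neg hne, if_pos ⟨hi, hk⟩] at h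
    exact h


end Pool.Agent.U317.CM
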