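import Pool.Agent.U317.CM.C1
import Pool.Agent.W640.MO.H1
import Pool.Agent.W280.MO.ES

/-!
# The Euler product sum over all rough numbers
-/

set_option autoImplicit false

namespace Pool.Agent.U317.CM

open Finset
open scoped Classical
open Pool.Agent.W76.MO

/-- the decomposition `t = d² m`, `m` squarefree -/
lemma exists_sp (t : ℕ) : ∃ u : ℕ × ℕ, t ≠ 0 → u.1 ≠ 0 ∧ u.2 ≠ 0 ∧ u.1 ^ 2 * u.2 = t ∧
    Squarefree u.2 := by
  rcases Nat.eq_zero_or_pos t with h | h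
  · exact ⟨(0, 0), fun h' => absurd h h'⟩
  · obtain ⟨a, b, ha, hb, hab, hs⟩ := Nat.sq_mul_squarefree_of_pos h
    exact ⟨(b, a), fun _ => ⟨hb.ne', ha.ne', hab, hs⟩⟩

noncomputable def sp (t : ℕ) : ℕ × ℕ := (exists_sp t).choose

lemma sp_spec {t : ℕ} (ht : t ≠ 0) : (sp t).1 ≠ 0 ∧ (sp t).2 ≠ 0 ∧ (sp t).1 ^ 2 * (sp t).2 = t ∧
    Squarefree (sp t).2 := (exists_sp t).choose_spec ht

lemma rough_dvd {R : ℝ} {a b : ℕ} (h : a ∣ b) (hb : Rough R b) : Rough R a :=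
  fun p hp hpa => hb p hp (hpa.trans h)

lemma rough_ge {R a : ℕ} (ha : Rough R a) (h1 : a ≠ 1) (h0 : a ≠ 0) : R ≤ a := by
  obtain ⟨p, hp, hpa⟩ := Nat.exists_prime_and_dvd h1
  have h2 := ha p hp hpa
  have h3 : R ≤ p := by exact_mod_cast h2
  exact h3.trans (Nat.le_of_dvd (Nat.pos_of_ne_zero h0) hpa)

variable (E : Env)

/-- the weights of the Euler product -/
noncomputable def ph (j t : ℕ) : ℝ := Wc E j t / t * (t : ℝ) ^ (-E.δ / 2)

lemma ph_mul (j : ℕ) {a b : ℕ} (ha : a ≠ 0) (hb : b ≠ 0) :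
    ph E j (a * b) = ph E j a * ph E j b := by
  unfold ph
  rw [Wc_mul E j ha hb, Nat.cast_mul, Real.mul_rpow (by positivity) (by positivity)]
  ring

lemma ph_nonneg (j t : ℕ) (hg : ∀ p, 0 ≤ E.g j p) : 0 ≤ ph E j t := by
  have := one_le_Wc E j t hg
  unfold ph
  positivity

lemma delta_small : E.δ ≤ 1 / 100000 := by
  have := E.hδ'
  have := E.hτ'
  linarith

lemma ph_sq_le (j : ℕ) (hg : ∀ p, 0 ≤ E.g j p)
    (hf : ∀ p : ℕ, p.Prime → 1 + 2 * (p * E.g j p) ≤ (p : ℝ) ^ (9 * E.δ)) {d : ℕ} (hd : d ≠ 0) :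
    ph E j d ^ 2 ≤ (d : ℝ) ^ (-1 - (1 : ℝ) / 2) := by
  have hδ := E.hδ
  have hδ' := delta_small E
  have hd1 : (1 : ℝ) ≤ d := by exact_mod_cast Nat.one_le_iff_ne_zero.2 hd
  have hd0 : (0 : ℝ) < d := by linarith
  have h1 : ph E j d ≤ (d : ℝ) ^ (-(3 / 4 : ℝ)) := by
    unfold ph
    calc Wc E j d / d * (d : ℝ) ^ (-E.δ / 2) ≤ (d : ℝ) ^ (9 * E.δ) / d * (d : ℝ) ^ (-E.δ / 2) := by
          have := Wc_le E j hg hf hd
          gcongr
      _ = (d : ℝ) ^ (9 * E.δ - 1 + -E.δ / 2) := by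
          rw [Real.rpow_add hd0, Real.rpow_sub_one hd0.ne']
      _ ≤ _ := Real.rpow_le_rpow_of_exponent_le hd1 (by linarith)
  have h0 := ph_nonneg E j d hg
  calc ph E j d ^ 2 ≤ ((d : ℝ) ^ (-(3 / 4 : ℝ))) ^ 2 := pow_le_pow_left₀ h0 h1 2
    _ = (d : ℝ) ^ (-1 - (1 : ℝ) / 2) := by
        rw [← Real.rpow_natCast, ← Real.rpow_mul hd0.le]
        norm_num

theorem EScm (hGB : E.GBounds) (hES : E.ESum) (η : ℝ) (hη : 0 < η) : ∃ R₀ : ℕ, ∀ R : ℕ, R₀ ≤ R →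
    ∃ J : ℕ, ∀ j : ℕ, J ≤ j → ∀ M : ℕ,
      ∑ t ∈ (Icc 2 M).filter (fun t => Rough R t), Wc E j t / t * (t : ℝ) ^ (-E.δ / 2) ≤ η := by
  set ε := min 1 η / 4 with hε
  have hm : 0 < min 1 η := lt_min one_pos hη
  have hε0 : 0 < ε := by positivity
  obtain ⟨R₁, hR₁⟩ := hES ε hε0
  obtain ⟨R₂, hR₂⟩ := Pool.Agent.W280.MO.tail_small (δ := 1) one_pos hε0
  refine ⟨max (max R₁ R₂) 2, fun R hR => ?_⟩
  have hRR₁ : R₁ ≤ R := ((le_max_left _ _).trans (le_max_left _ _)).trans hR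
  have hRR₂ : R₂ ≤ R := ((le_max_right _ _).trans (le_max_left _ _)).trans hR
  have hR2 : 2 ≤ R := (le_max_right _ _).trans hR
  obtain ⟨J₁, hJ₁⟩ := hR₁ R hRR₁
  obtain ⟨J₀, hJ₀, hJ⟩ := hGB
  refine ⟨J₀ + J₁ + 2, fun j hj M => ?_⟩
  obtain ⟨-, hgu0, hgh0, hgu, hgh, hU, hH, -, -⟩ := hJ j (by omega)
  have hf := Pool.Agent.W640.MO.factor_le E (by omega) hgu hgh hU hH
  have hg : ∀ p, 0 ≤ E.g j p := fun p => add_nonneg (hgu0 p) (hgh0 p)
  set T : Finset ℕ := (Icc 2 M).filter (fun t => Squarefree t ∧ Rough R t) with hT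
  have hsT : ∑ t ∈ T, ph E j t ≤ ε := by
    refine le_trans (le_of_eq (sum_congr rfl fun t ht => ?_)) (hJ₁ j (by omega) M)
    rw [hT, mem_filter] at ht
    unfold ph
    rw [Wc_squarefree E j ht.2.1]
  have h1T : (1 : ℕ) ∉ T := by
    rw [hT, mem_filter, mem_Icc]
    omega
  set S : Finset ℕ := (Icc 2 M).filter (fun t => Rough R t) with hS
  have hφ : ∀ t, 0 ≤ ph E j t := fun t => ph_nonneg E j t hg
  show ∑ t ∈ S, ph E j t ≤ η
  rw [← sum_filter_add_sum_filter_not S (fun t => (sp t).1 = 1)]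
  have hp1 : ∑ t ∈ S.filter (fun t => (sp t).1 = 1), ph E j t ≤ ε := by
    refine le_trans (sum_le_sum_of_subset_of_nonneg ?_ fun t _ _ => hφ t) hsT
    intro t ht
    rw [mem_filter, hS, mem_filter, mem_Icc] at ht
    obtain ⟨⟨⟨h1, h2⟩, h3⟩, h4⟩ := ht
    obtain ⟨-, -, h5, h6⟩ := sp_spec (t := t) (by omega)
    rw [h4, one_pow, one_mul] at h5
    rw [h5] at h6
    rw [hT, mem_filter, mem_Icc]
    exact ⟨⟨h1, h2⟩, h6, h3⟩
  have hp2 : ∑ t ∈ S.filter (fun t => ¬ (sp t).1 = 1), ph E j t ≤ ε * (1 + ε) := by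
    set S' := S.filter (fun t => ¬ (sp t).1 = 1) with hS'
    have hmem : ∀ t ∈ S', t ≠ 0 ∧ Rough R t ∧ (sp t).1 ≠ 1 ∧ t ≤ M := by
      intro t ht
      rw [hS', mem_filter, hS, mem_filter, mem_Icc] at ht
      exact ⟨by omega, ht.1.2, ht.2, ht.1.1.2⟩
    have e1 : ∑ t ∈ S', ph E j t = ∑ t ∈ S', ph E j (sp t).1 ^ 2 * ph E j (sp t).2 := by
      refine sum_congr rfl fun t ht => ?_
      obtain ⟨h0, -, -, -⟩ := hmem t ht
      obtain ⟨h1, h2, h3, -⟩ := sp_spec h0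
      conv_lhs => rw [← h3]
      rw [ph_mul E j (pow_ne_zero 2 h1) h2, pow_two, ph_mul E j h1 h1, pow_two]
    have hinj : Set.InjOn sp (S' : Set ℕ) := by
      intro t ht t' ht' h
      have h1 := (sp_spec (hmem t ht).1).2.2.1
      have h2 := (sp_spec (hmem t' ht').1).2.2.1
      rw [← h1, ← h2, h]
    have e2 : ∑ t ∈ S', ph E j (sp t).1 ^ 2 * ph E j (sp t).2 =
        ∑ u ∈ S'.image sp, ph E j u.1 ^ 2 * ph E j u.2 := by
      rw [sum_image hinj]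
    rw [e1, e2]
    have hsub : S'.image sp ⊆ (Icc R M) ×ˢ (insert 1 T) := by
      intro u hu
      rw [mem_image] at hu
      obtain ⟨t, ht, rfl⟩ := hu
      obtain ⟨h0, hr, hne, htM⟩ := hmem t ht
      obtain ⟨h1, h2, h3, h4⟩ := sp_spec h0
      have hd1 : (sp t).1 ∣ t := ⟨(sp t).1 * (sp t).2, by rw [← mul_assoc, ← pow_two, h3]⟩
      have hd2 : (sp t).2 ∣ t := ⟨(sp t).1 ^ 2, by rw [mul_comm, h3]⟩
      have ht0 : 0 < t := Nat.pos_of_ne_zero h0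
      rw [mem_product, mem_Icc, mem_insert]
      refine ⟨⟨rough_ge (rough_dvd hd1 hr) hne h1, (Nat.le_of_dvd ht0 hd1).trans htM⟩, ?_⟩
      by_cases h5 : (sp t).2 = 1
      · exact Or.inl h5
      · right
        rw [hT, mem_filter, mem_Icc]
        exact ⟨⟨by omega, (Nat.le_of_dvd ht0 hd2).trans htM⟩, h4, rough_dvd hd2 hr⟩
    refine (sum_le_sum_of_subset_of_nonneg hsub fun u _ _ =>
      mul_nonneg (sq_nonneg _) (hφ _)).trans ?_
    rw [sum_product]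
    simp only
    have e3 : ∑ x ∈ Icc R M, ∑ y ∈ insert 1 T, ph E j x ^ 2 * ph E j y =
        (∑ x ∈ Icc R M, ph E j x ^ 2) * ∑ y ∈ insert 1 T, ph E j y := by
      rw [sum_mul_sum]
    rw [e3, sum_insert h1T]
    have h1 : ph E j 1 = 1 := by
      unfold ph
      rw [Wc_one]
      simp
    rw [h1]
    have h2 : ∑ x ∈ Icc R M, ph E j x ^ 2 ≤ ε := by
      refine le_trans (sum_le_sum fun x hx => ?_) (hR₂ (Icc R M) fun p hp => ?_)
      · rw [mem_Icc] at hx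
        exact ph_sq_le E j hg hf (by omega)
      · rw [mem_Icc] at hp
        omega
    have h3 : 0 ≤ ∑ y ∈ T, ph E j y := sum_nonneg fun y _ => hφ y
    exact mul_le_mul h2 (by linarith) (by linarith) hε0.le
  have hmin1 : min 1 η ≤ 1 := min_le_left _ _
  have hmin2 : min 1 η ≤ η := min_le_right _ _
  have hε1 : ε ≤ 1 := by rw [hε]; linarith
  have hε2 : 4 * ε ≤ η := by rw [hε]; linarith
  nlinarith

end Pool.Agent.U317.CM
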