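import Pool.Agent.U317.CM.C2
import Pool.Agent.W356.MO.HB

/-!
# Counting numbers with a large square divisor
-/

set_option autoImplicit false

namespace Pool.Agent.U317.CM

open Finset
open scoped Classical
open Pool.Agent.W76.MO

lemma sum_inv_sq (D T : ℕ) (hD : 1 ≤ D) : ∑ d ∈ Icc D T, 1 / ((d : ℝ) ^ 2) ≤ 2 / (D : ℝ) := by
  have hD0 : (0 : ℝ) < D := by exact_mod_cast hD
  have hD1 : (1 : ℝ) ≤ D := by exact_mod_cast hD
  have key : ∀ m : ℕ, ∑ d ∈ Icc D (D + m), 1 / ((d : ℝ) ^ 2) ≤ 2 / D - 1 / ((D : ℝ) + m) := by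
    intro m
    induction m with
    | zero =>
      rw [add_zero, Icc_self, sum_singleton, Nat.cast_zero, add_zero, div_sub_div_same,
        div_le_div_iff₀ (by positivity) hD0]
      nlinarith
    | succ m ih =>
      rw [← add_assoc, Finset.sum_Icc_succ_top (by omega)]
      have h1 : 1 / (((D + m + 1 : ℕ) : ℝ) ^ 2) ≤ 1 / ((D : ℝ) + m) - 1 / ((D : ℝ) + (m + 1 : ℕ)) := by
        push_cast
        have h2 : (0 : ℝ) < (D : ℝ) + m := by positivity
        rw [div_sub_div _ _ (by positivity) (by positivity), div_le_div_iff₀ (by positivity)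
          (by positivity)]
        nlinarith
      linarith
  rcases le_or_gt D T with h | h
  · obtain ⟨m, rfl⟩ := Nat.exists_eq_add_of_le h
    have h1 := key m
    have h2 : (0 : ℝ) ≤ 1 / ((D : ℝ) + m) := by positivity
    linarith
  · rw [Icc_eq_empty (by omega), sum_empty]
    positivity

/-- numbers in a short interval with a square divisor `d²`, `d ≥ D` -/
lemma sq_count (a h T D : ℕ) (hD : 1 ≤ D) (hT : 1 ≤ T) (hh : h ^ 2 ≤ 4 * a) (ha : 1 ≤ a) :
    ((((Ioc a (a + h)).filter (fun n => ∃ d, D ≤ d ∧ d ^ 2 ∣ n)).card : ℕ) : ℝ) ≤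
      2 * h / D + T + ((a : ℝ) + h) / T ^ 2 + 1 := by
  set S1 : Finset ℕ := (Icc D T).biUnion (fun d => (Ioc a (a + h)).filter (fun n => d ^ 2 ∣ n))
    with hS1
  set S2 : Finset ℕ := (Ioc a (a + h)).filter (fun n => ∃ d, T < d ∧ d ^ 2 ∣ n) with hS2
  have hsub : (Ioc a (a + h)).filter (fun n => ∃ d, D ≤ d ∧ d ^ 2 ∣ n) ⊆ S1 ∪ S2 := by
    intro n hn
    rw [mem_filter] at hn
    obtain ⟨hn, d, hd, hdn⟩ := hn
    rw [mem_union]
    rcases le_or_gt d T with h1 | h1
    · left
      rw [hS1, mem_biUnion]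
      exact ⟨d, mem_Icc.2 ⟨hd, h1⟩, mem_filter.2 ⟨hn, hdn⟩⟩
    · right
      exact mem_filter.2 ⟨hn, d, h1, hdn⟩
  have hc1 : (S1.card : ℝ) ≤ 2 * h / D + T := by
    have h1 : S1.card ≤ ∑ d ∈ Icc D T, (h / d ^ 2 + 1) := by
      refine card_biUnion_le.trans (sum_le_sum fun d hd => ?_)
      rw [mem_Icc] at hd
      exact Pool.Agent.W640.MO.card_mult_le a h (d ^ 2) (by have : 0 < d := by omega
                                                            positivity)
    have h2 : (S1.card : ℝ) ≤ ∑ d ∈ Icc D T, ((h / d ^ 2 + 1 : ℕ) : ℝ) := by exact_mod_cast h1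
    refine h2.trans ?_
    have h3 : ∀ d ∈ Icc D T, ((h / d ^ 2 + 1 : ℕ) : ℝ) ≤ h * (1 / (d : ℝ) ^ 2) + 1 := by
      intro d _
      push_cast
      have h4 : ((h / d ^ 2 : ℕ) : ℝ) ≤ (h : ℝ) / ((d ^ 2 : ℕ) : ℝ) := Nat.cast_div_le
      push_cast at h4
      rw [mul_one_div]
      linarith
    refine (sum_le_sum h3).trans ?_
    rw [sum_add_distrib, ← mul_sum, sum_const, nsmul_eq_mul, mul_one, Nat.card_Icc]
    have h5 := mul_le_mul_of_nonneg_left (sum_inv_sq D T hD) (Nat.cast_nonneg (α := ℝ) h)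
    have h6 : ((T + 1 - D : ℕ) : ℝ) ≤ T := by
      exact_mod_cast (by omega : T + 1 - D ≤ T)
    have h7 : (h : ℝ) * (2 / D) = 2 * h / D := by ring
    linarith
  have hc2 : (S2.card : ℝ) ≤ ((a : ℝ) + h) / T ^ 2 + 1 := by
    -- the cofactor determines `n`
    have hex : ∀ n : ℕ, ∃ d : ℕ, n ∈ S2 → T < d ∧ d ^ 2 ∣ n := by
      intro n
      by_cases hn : n ∈ S2
      · obtain ⟨d, hd⟩ := (mem_filter.1 hn).2
        exact ⟨d, fun _ => hd⟩
      · exact ⟨0, fun h => absurd h hn⟩
    choose D' hD' using hex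
    have hcard : S2.card ≤ (range ((a + h) / T ^ 2 + 1)).card := by
      apply card_le_card_of_injOn (fun n => n / (D' n) ^ 2)
      · intro n hn
        obtain ⟨h1, h2⟩ := hD' n hn
        have h3 := (mem_Ioc.1 (mem_filter.1 (mem_coe.1 hn)).1).2
        rw [mem_coe, mem_range]
        refine Nat.lt_succ_of_le ((Nat.div_le_div_right h3).trans ?_)
        exact Nat.div_le_div_left (Nat.pow_le_pow_left h1.le 2) (by positivity)
      · intro n hn n' hn' he
        simp only at he
        obtain ⟨h1, h2⟩ := hD' n hn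
        obtain ⟨h1', h2'⟩ := hD' n' hn'
        have hI := mem_Ioc.1 (mem_filter.1 (mem_coe.1 hn)).1
        have hI' := mem_Ioc.1 (mem_filter.1 (mem_coe.1 hn')).1
        set m := n / (D' n) ^ 2 with hm
        have e1 : n = m * (D' n) ^ 2 := (Nat.div_mul_cancel h2).symm
        have e2 : n' = m * (D' n') ^ 2 := by
          rw [he]
          exact (Nat.div_mul_cancel h2').symm
        have hm0 : 0 < m := by
          rcases Nat.eq_zero_or_pos m with h0 | h0
          · rw [h0, zero_mul] at e1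
            omega
          · exact h0
        -- two different roots are far apart
        have key : ∀ x y : ℕ, a < m * x ^ 2 → m * y ^ 2 ≤ a + h → x < y → False := by
          intro x y hx hy hxy
          have h3 : m * x ^ 2 + 2 * (m * x) + m ≤ m * y ^ 2 := by
            have h4 : (x + 1) ^ 2 ≤ y ^ 2 := Nat.pow_le_pow_left hxy 2
            have h5 := Nat.mul_le_mul_left m h4
            nlinarith
          have h4 : 2 * (m * x) < h := by omega
          have h5 : (2 * (m * x)) ^ 2 < h ^ 2 := Nat.pow_lt_pow_left h4 two_ne_zero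
          have h6 : 4 * (m * x ^ 2) ≤ (2 * (m * x)) ^ 2 := by
            have : (2 * (m * x)) ^ 2 = 4 * (m * x ^ 2) * m := by ring
            rw [this]
            exact Nat.le_mul_of_pos_right _ hm0
          omega
        rcases lt_trichotomy (D' n) (D' n') with h3 | h3 | h3
        · exact (key _ _ (by rw [← e1]; exact hI.1) (by rw [← e2]; exact hI'.2) h3).elim
        · rw [e1, e2, h3]
        · exact (key _ _ (by rw [← e2]; exact hI'.1) (by rw [← e1]; exact hI.2) h3).elim
    rw [card_range] at hcard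
    have h1 : (S2.card : ℝ) ≤ (((a + h) / T ^ 2 + 1 : ℕ) : ℝ) := by exact_mod_cast hcard
    refine h1.trans ?_
    push_cast
    have h2 : (((a + h) / T ^ 2 : ℕ) : ℝ) ≤ ((a + h : ℕ) : ℝ) / ((T ^ 2 : ℕ) : ℝ) := Nat.cast_div_le
    push_cast at h2
    linarith
  have h1 := (card_le_card hsub).trans (card_union_le _ _)
  have h2 : ((((Ioc a (a + h)).filter (fun n => ∃ d, D ≤ d ∧ d ^ 2 ∣ n)).card : ℕ) : ℝ) ≤
      (S1.card : ℝ) + S2.card := by exact_mod_cast h1
  linarith

end Pool.Agent.U317.CM
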