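import Pool.Agent.U317.CM.C3
import Pool.Agent.W683.MO.SP

/-!
# The numbers treated by the trivial bound of the weight
-/

set_option autoImplicit false

namespace Pool.Agent.U317.CM

open Finset
open scoped Classical
open Pool.Agent.W76.MO
open Pool.Agent.W640.MO (poly_le_two_rpow factor_le card_mult_le)
open Pool.Agent.W683.MO (hh_le lt_hh cell_sub card_cell bad_lt card_bad δ_half w_nonneg)

variable (E : Env)

/-- the elements of a cell with a large square divisor -/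
noncomputable def SqN (i k : ℕ) : Finset ℕ := (cell E.δ i k).filter (fun n =>
  ∃ d, ⌈(2 : ℝ) ^ (10 * E.δ * i)⌉₊ ≤ d ∧ d ^ 2 ∣ n)

/-- `n` has an exceptional host prime -/
def Exc (j i n : ℕ) : Prop :=
  ∃ i' ∈ range (2 * i + 3), j ≤ i' ∧ ∃ k' ∈ E.Bad i', ∃ n₁ ∈ E.Host j i' k', lp n₁ ∣ n ∧
    (2 : ℝ) ^ (1 / 20 * (i : ℝ)) < lp n₁ ∧ ((i' : ℝ) < (1 - E.τ) * i ∨ ¬ n₁ ∣ n)

/-- the elements of a cell with an exceptional host prime -/
noncomputable def BadN (j i k : ℕ) : Finset ℕ := (cell E.δ i k).filter (fun n => Exc E j i n)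

lemma Wc_cell_le {j i k n : ℕ} (hg : ∀ p, 0 ≤ E.g j p)
    (hf : ∀ p : ℕ, p.Prime → 1 + 2 * (p * E.g j p) ≤ (p : ℝ) ^ (9 * E.δ))
    (hk : k < nc E.δ i) (hn : n ∈ cell E.δ i k) :
    Wc E j n / n ≤ 2 * (2 : ℝ) ^ (9 * E.δ * i) / 2 ^ i := by
  have hδ := E.hδ
  have hδ' := delta_small E
  obtain ⟨h1, h2⟩ := cell_sub hδ.le hk hn
  have hn0 : n ≠ 0 := by omega
  have h3 := Wc_le E j hg hf hn0
  have h4 : (n : ℝ) ^ (9 * E.δ) ≤ 2 * (2 : ℝ) ^ (9 * E.δ * i) := by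
    have h5 : (n : ℝ) ≤ (2 : ℝ) ^ ((i : ℝ) + 1) := by
      have : (n : ℝ) ≤ 2 ^ (i + 1) := by exact_mod_cast h2
      rw [← Real.rpow_natCast] at this
      push_cast at this
      exact this
    calc (n : ℝ) ^ (9 * E.δ) ≤ ((2 : ℝ) ^ ((i : ℝ) + 1)) ^ (9 * E.δ) :=
          Real.rpow_le_rpow (by positivity) h5 (by linarith)
      _ = (2 : ℝ) ^ (9 * E.δ) * (2 : ℝ) ^ (9 * E.δ * i) := by
          rw [← Real.rpow_mul (by norm_num), ← Real.rpow_add (by norm_num)]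
          ring_nf
      _ ≤ 2 * (2 : ℝ) ^ (9 * E.δ * i) := by
          apply mul_le_mul_of_nonneg_right _ (by positivity)
          calc (2 : ℝ) ^ (9 * E.δ) ≤ (2 : ℝ) ^ (1 : ℝ) :=
                Real.rpow_le_rpow_of_exponent_le (by norm_num) (by linarith)
            _ = 2 := Real.rpow_one 2
  have h5 : (2 : ℝ) ^ i ≤ n := by exact_mod_cast h1.le
  exact div_le_div₀ (by positivity) (h3.trans h4) (by positivity) h5

lemma hh_sq (i : ℕ) : hh E.δ i ^ 2 ≤ 2 ^ i := by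
  have hδ := E.hδ
  unfold hh
  rw [← pow_mul]
  apply Nat.pow_le_pow_right (by norm_num)
  have h1 : ⌊(1 / 2 - E.δ) * (i : ℝ)⌋₊ ≤ i / 2 := by
    rw [Nat.le_div_iff_mul_le (by norm_num)]
    have h2 : (⌊(1 / 2 - E.δ) * (i : ℝ)⌋₊ : ℝ) ≤ (1 / 2 - E.δ) * i := by
      apply Nat.floor_le
      have := δ_half E
      have h3 : (0 : ℝ) ≤ i := Nat.cast_nonneg i
      exact mul_nonneg (by linarith) h3
    have h4 : (⌊(1 / 2 - E.δ) * (i : ℝ)⌋₊ : ℝ) * 2 ≤ i := by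
      have h3 : (0 : ℝ) ≤ i := Nat.cast_nonneg i
      nlinarith
    exact_mod_cast h4
  omega

lemma card_SqN {i k : ℕ} (hk : k < nc E.δ i) :
    ((SqN E i k).card : ℝ) ≤ 12 * (2 : ℝ) ^ ((1 / 2 - 11 * E.δ) * i) := by
  have hδ := E.hδ
  have hδ' := delta_small E
  have hiR : (0 : ℝ) ≤ i := Nat.cast_nonneg i
  set D : ℕ := ⌈(2 : ℝ) ^ (10 * E.δ * i)⌉₊ with hD
  have hDR : (2 : ℝ) ^ (10 * E.δ * i) ≤ D := Nat.le_ceil _
  have hD0 : (0 : ℝ) < (2 : ℝ) ^ (10 * E.δ * i) := by positivity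
  have hD1 : 1 ≤ D := by
    have : (0 : ℝ) < D := hD0.trans_le hDR
    exact_mod_cast this
  set h : ℕ := hh E.δ i with hh'
  set a : ℕ := 2 ^ i + k * h with ha
  set e : ℕ := i / 3 with he
  have hnc : nc E.δ i * h = 2 ^ i := Pool.Agent.W683.MO.nc_mul hδ.le i
  have hah : a + h ≤ 2 ^ (i + 1) := by
    have h2 : (k + 1) * h ≤ nc E.δ i * h := Nat.mul_le_mul_right _ hk
    have h3 : (k + 1) * h = k * h + h := by ring
    have h4 : 2 ^ (i + 1) = 2 * 2 ^ i := by ring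
    omega
  have hsq := sq_count a h (2 ^ e) D hD1 Nat.one_le_two_pow
    (by have := hh_sq E i; have h4 : 2 ^ i ≤ a := Nat.le_add_right _ _; rw [← hh'] at this; omega)
    (by have h4 : 2 ^ i ≤ a := Nat.le_add_right _ _
        have h5 : 1 ≤ 2 ^ i := Nat.one_le_two_pow
        omega)
  have hS : SqN E i k = (Ioc a (a + h)).filter (fun n => ∃ d, D ≤ d ∧ d ^ 2 ∣ n) := by
    unfold SqN cell
    rw [show 2 ^ i + (k + 1) * hh E.δ i = a + h by rw [ha, hh']; ring]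
  rw [hS]
  refine hsq.trans ?_
  have hB : (0 : ℝ) < (2 : ℝ) ^ ((1 / 2 - 11 * E.δ) * i) := by positivity
  have h1 : 2 * (h : ℝ) / D ≤ 2 * (2 : ℝ) ^ ((1 / 2 - 11 * E.δ) * i) := by
    have h2 := hh_le (δ_half E) i
    calc 2 * (h : ℝ) / D ≤ 2 * (2 : ℝ) ^ ((1 / 2 - E.δ) * i) / (2 : ℝ) ^ (10 * E.δ * i) := by
          gcongr
      _ = 2 * (2 : ℝ) ^ ((1 / 2 - 11 * E.δ) * i) := by
          rw [mul_div_assoc, ← Real.rpow_sub (by norm_num)]
          ring_nf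
  have h3 : ((2 ^ e : ℕ) : ℝ) ≤ (2 : ℝ) ^ ((1 / 2 - 11 * E.δ) * i) := by
    push_cast
    rw [← Real.rpow_natCast]
    apply Real.rpow_le_rpow_of_exponent_le (by norm_num)
    have h4 : (e : ℝ) ≤ (i : ℝ) / 3 := by
      have := Nat.cast_div_le (α := ℝ) (m := i) (n := 3)
      rw [he]
      exact_mod_cast this
    nlinarith
  have h5 : ((a : ℝ) + h) / ((2 ^ e : ℕ) : ℝ) ^ 2 ≤ 8 * ((2 ^ e : ℕ) : ℝ) := by
    rw [div_le_iff₀ (by positivity)]
    have h6 : a + h ≤ 8 * 2 ^ e * (2 ^ e) ^ 2 := by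
      refine hah.trans ?_
      have h7 : 8 * 2 ^ e * (2 ^ e) ^ 2 = 2 ^ (3 + 3 * e) := by
        rw [← pow_mul, pow_add]
        rw [show 3 * e = e + e * 2 by ring, pow_add]
        ring
      rw [h7]
      apply Nat.pow_le_pow_right (by norm_num)
      omega
    have h8 : ((a + h : ℕ) : ℝ) ≤ ((8 * 2 ^ e * (2 ^ e) ^ 2 : ℕ) : ℝ) := by exact_mod_cast h6
    push_cast at h8 ⊢
    exact h8
  have h9 : (1 : ℝ) ≤ ((2 ^ e : ℕ) : ℝ) := by exact_mod_cast Nat.one_le_two_pow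
  linarith

/-- the contribution of the numbers with a large square divisor -/
lemma mass_SqN (hGB : E.GBounds) : ∃ J : ℕ, ∀ j : ℕ, J ≤ j → ∀ i k : ℕ, j ≤ i → k < nc E.δ i →
    ∑ n ∈ SqN E i k, Wc E j n / n ≤ E.w i / 128 := by
  have hδ := E.hδ
  obtain ⟨J₀, hJ₀, hJ⟩ := hGB
  obtain ⟨J₁, hJ₁⟩ := poly_le_two_rpow (3 / 2 * E.δ) (by positivity) (24 * 128) 40
  refine ⟨J₀ + J₁ + 2, fun j hj i k hji hk => ?_⟩
  obtain ⟨-, hgu0, hgh0, hgu, hgh, hU, hH, -, -⟩ := hJ j (by omega)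
  have hf := factor_le E (by omega) hgu hgh hU hH
  have hg : ∀ p, 0 ≤ E.g j p := fun p => add_nonneg (hgu0 p) (hgh0 p)
  have h1 : ∑ n ∈ SqN E i k, Wc E j n / n ≤
      ((SqN E i k).card : ℝ) * (2 * (2 : ℝ) ^ (9 * E.δ * i) / 2 ^ i) := by
    rw [← nsmul_eq_mul]
    apply sum_le_card_nsmul
    intro n hn
    exact Wc_cell_le E hg hf hk (mem_filter.1 hn).1
  refine h1.trans ((mul_le_mul_of_nonneg_right (card_SqN E hk) (by positivity)).trans ?_)
  have hi0 : (0 : ℝ) < i := by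
    have : 0 < i := by omega
    exact_mod_cast this
  have h2 := hJ₁ i (by omega)
  unfold Env.w
  rw [div_div, le_div_iff₀ (by positivity)]
  have e1 : 12 * (2 : ℝ) ^ ((1 / 2 - 11 * E.δ) * i) * (2 * (2 : ℝ) ^ (9 * E.δ * i) / 2 ^ i) *
      ((i : ℝ) ^ 40 * 128) = ((2 : ℝ) ^ ((1 / 2 - 11 * E.δ) * i) * (2 : ℝ) ^ (9 * E.δ * i) / 2 ^ i) *
        (24 * 128 * (i : ℝ) ^ 40) := by ring
  rw [e1]
  refine (mul_le_mul_of_nonneg_left h2 (by positivity)).trans (le_of_eq ?_)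
  rw [← Real.rpow_natCast 2 i, ← Real.rpow_add (by norm_num), ← Real.rpow_sub (by norm_num),
    ← Real.rpow_add (by norm_num)]
  congr 1
  ring

lemma host_card_le {j i' k' : ℕ} : ((E.Host j i' k').card : ℝ) ≤ (2 : ℝ) ^ ((1 / 2 - E.δ) * i') := by
  refine le_trans ?_ (hh_le (δ_half E) i')
  have h1 : (E.Host j i' k').card ≤ (cell E.δ i' k').card := card_le_card (filter_subset _ _)
  rw [card_cell] at h1
  exact_mod_cast h1

/-- the elements of the cell with an exceptional prime of a host of a given cell -/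
noncomputable def CN (j i k i' k' : ℕ) : Finset ℕ := (cell E.δ i k).filter (fun n =>
  ∃ n₁ ∈ E.Host j i' k', lp n₁ ∣ n ∧
    (2 : ℝ) ^ (1 / 20 * (i : ℝ)) < lp n₁ ∧ ((i' : ℝ) < (1 - E.τ) * i ∨ ¬ n₁ ∣ n))

lemma card_CN_small {j i k i' k' : ℕ} :
    ((CN E j i k i' k').card : ℝ) ≤ (2 : ℝ) ^ ((1 / 2 - E.δ) * i') *
      ((2 : ℝ) ^ ((1 / 2 - E.δ) * i) * (2 : ℝ) ^ (-(1 / 2 + E.τ) * i') + 1) := by
  have h1 : CN E j i k i' k' ⊆ (E.Host j i' k').biUnion (fun n₁ =>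
      (cell E.δ i k).filter (fun n => lp n₁ ∣ n)) := by
    intro n hn
    unfold CN at hn
    rw [mem_filter] at hn
    obtain ⟨hn, n₁, hn₁, hd, -⟩ := hn
    exact mem_biUnion.2 ⟨n₁, hn₁, mem_filter.2 ⟨hn, hd⟩⟩
  have h2 := (card_le_card h1).trans card_biUnion_le
  have h3 : ((CN E j i k i' k').card : ℝ) ≤ ∑ n₁ ∈ E.Host j i' k',
      (((cell E.δ i k).filter (fun n => lp n₁ ∣ n)).card : ℝ) := by exact_mod_cast h2
  refine h3.trans ?_
  have h4 : ∀ n₁ ∈ E.Host j i' k', (((cell E.δ i k).filter (fun n => lp n₁ ∣ n)).card : ℝ) ≤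
      (2 : ℝ) ^ ((1 / 2 - E.δ) * i) * (2 : ℝ) ^ (-(1 / 2 + E.τ) * i') + 1 := by
    intro n₁ hn₁
    unfold Env.Host at hn₁
    rw [mem_filter] at hn₁
    have h := hn₁.2.1
    have h' : (0 : ℝ) < (2 : ℝ) ^ ((1 / 2 + E.τ) * (i' : ℝ)) := by positivity
    have hlp : 0 < lp n₁ := by exact_mod_cast h'.trans_le h
    have h5 := card_mult_le (2 ^ i + k * hh E.δ i) (hh E.δ i) (lp n₁) hlp
    have he : cell E.δ i k = Ioc (2 ^ i + k * hh E.δ i) (2 ^ i + k * hh E.δ i + hh E.δ i) := by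
      unfold cell
      congr 1
      ring
    rw [he]
    have h6 : ((hh E.δ i / lp n₁ : ℕ) : ℝ) ≤ hh E.δ i / (lp n₁ : ℝ) := Nat.cast_div_le
    have h8 := hh_le (δ_half E) i
    have h7 : (hh E.δ i : ℝ) / (lp n₁ : ℝ) ≤
        (2 : ℝ) ^ ((1 / 2 - E.δ) * i) * (2 : ℝ) ^ (-(1 / 2 + E.τ) * i') := by
      rw [div_eq_mul_inv]
      apply mul_le_mul h8 _ (by positivity) (by positivity)
      rw [neg_mul, Real.rpow_neg (by norm_num)]
      exact inv_anti₀ h' h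
    have h9 : ((((Ioc (2 ^ i + k * hh E.δ i) (2 ^ i + k * hh E.δ i + hh E.δ i)).filter
        (fun n => lp n₁ ∣ n)).card : ℕ) : ℝ) ≤ ((hh E.δ i / lp n₁ + 1 : ℕ) : ℝ) := by
      exact_mod_cast h5
    push_cast at h9
    linarith
  refine (sum_le_card_nsmul _ _ _ h4).trans ?_
  rw [nsmul_eq_mul]
  exact mul_le_mul_of_nonneg_right (host_card_le E) (by positivity)

lemma card_CN_zero {j i k i' k' : ℕ} (hk' : k' < nc E.δ i') (h : (i' : ℝ) + 1 ≤ 1 / 20 * i) :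
    CN E j i k i' k' = ∅ := by
  unfold CN
  rw [filter_eq_empty_iff]
  rintro n - ⟨n₁, hn₁, -, hlt, -⟩
  unfold Env.Host at hn₁
  rw [mem_filter] at hn₁
  obtain ⟨-, h1b⟩ := cell_sub E.hδ.le hk' hn₁.1
  have h2 : (lp n₁ : ℝ) ≤ (2 : ℝ) ^ (i' + 1) := by
    have : lp n₁ ≤ 2 ^ (i' + 1) := hn₁.2.2.1.le.trans h1b
    exact_mod_cast this
  have h3 : (2 : ℝ) ^ (i' + 1) ≤ (2 : ℝ) ^ (1 / 20 * (i : ℝ)) := by
    rw [← Real.rpow_natCast 2 (i' + 1)]
    apply Real.rpow_le_rpow_of_exponent_le (by norm_num)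
    push_cast
    exact h
  linarith

lemma card_CN_large {j i k i' k' : ℕ} (hk : k < nc E.δ i) (hk' : k' < nc E.δ i')
    (hi' : (1 - E.τ) * i ≤ i') (hi'2 : i' ≤ 2 * i + 2) {JP : ℕ} (hJP : JP ≤ i)
    (hP : ∀ i i' : ℕ, JP ≤ i → (1 - E.τ) * i ≤ i' → i' ≤ 2 * i + 2 →
      ∀ x x' : ℕ, 2 ^ i ≤ x → x ≤ 2 ^ (i + 1) → 2 ^ i' ≤ x' → x' ≤ 2 ^ (i' + 1) →
        ((((Ioc x' (x' + hh E.δ i')) ×ˢ (Ioc x (x + hh E.δ i))).filter (fun u : ℕ × ℕ =>
          ∃ m q : ℕ, u.1 = m * q ∧ q.Prime ∧ (2 : ℝ) ^ ((1 / 2 + E.τ) * i') ≤ q ∧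
            Rough ((2 : ℝ) ^ (E.τ * i')) m ∧ q ∣ u.2 ∧ ¬ u.1 ∣ u.2)).card : ℝ) ≤
          hh E.δ i * (2 : ℝ) ^ (-(E.τ / 4) * i)) :
    ((CN E j i k i' k').card : ℝ) ≤ (2 : ℝ) ^ ((1 / 2 - E.δ) * i) * (2 : ℝ) ^ (-(E.τ / 4) * i) := by
  have hb : ∀ i k : ℕ, k < nc E.δ i → 2 ^ i ≤ 2 ^ i + k * hh E.δ i ∧
      2 ^ i + k * hh E.δ i ≤ 2 ^ (i + 1) := by
    intro i k hk
    refine ⟨Nat.le_add_right _ _, ?_⟩
    have h1 : nc E.δ i * hh E.δ i = 2 ^ i := Pool.Agent.W683.MO.nc_mul E.hδ.le i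
    have h2 : k * hh E.δ i ≤ nc E.δ i * hh E.δ i := Nat.mul_le_mul_right _ hk.le
    rw [pow_succ]
    omega
  have hpair := hP i i' hJP hi' hi'2 _ _ (hb i k hk).1 (hb i k hk).2 (hb i' k' hk').1
    (hb i' k' hk').2
  refine le_trans ?_ (hpair.trans (mul_le_mul_of_nonneg_right (hh_le (δ_half E) i) (by positivity)))
  have hcard : (CN E j i k i' k').card ≤ ((((Ioc (2 ^ i' + k' * hh E.δ i')
      (2 ^ i' + k' * hh E.δ i' + hh E.δ i')) ×ˢ
      (Ioc (2 ^ i + k * hh E.δ i) (2 ^ i + k * hh E.δ i + hh E.δ i))).filter (fun u : ℕ × ℕ =>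
          ∃ m q : ℕ, u.1 = m * q ∧ q.Prime ∧ (2 : ℝ) ^ ((1 / 2 + E.τ) * i') ≤ q ∧
            Rough ((2 : ℝ) ^ (E.τ * i')) m ∧ q ∣ u.2 ∧ ¬ u.1 ∣ u.2)).image Prod.snd).card := by
    apply card_le_card
    intro n hn
    unfold CN at hn
    rw [mem_filter] at hn
    obtain ⟨hn, n₁, hn₁, hd, -, hor⟩ := hn
    have hnd : ¬ n₁ ∣ n := by
      rcases hor with h | h
      · linarith
      · exact h
    rw [mem_image]
    refine ⟨(n₁, n), ?_, rfl⟩
    unfold Env.Host at hn₁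
    rw [mem_filter] at hn₁
    obtain ⟨hc1, hl1, hl2, hsf, hro, _⟩ := hn₁
    have hlpos : 0 < W76.MO.lp n₁ := by
      have h' : (0 : ℝ) < (2 : ℝ) ^ ((1 / 2 + E.τ) * (i' : ℝ)) := by positivity
      exact_mod_cast h'.trans_le hl1
    have hlm := Pool.Agent.W356.MO.lp_mem_of_pos hlpos
    have hlp : (W76.MO.lp n₁).Prime := Nat.prime_of_mem_primeFactors hlm
    have hld : W76.MO.lp n₁ ∣ n₁ := Nat.dvd_of_mem_primeFactors hlm
    rw [mem_filter, mem_product]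
    refine ⟨⟨?_, ?_⟩, n₁ / W76.MO.lp n₁, W76.MO.lp n₁, (Nat.div_mul_cancel hld).symm, hlp, hl1,
      ?_, hd, hnd⟩
    · unfold cell at hc1
      rw [Finset.mem_Ioc] at hc1 ⊢
      rw [add_mul, one_mul, ← add_assoc] at hc1
      exact hc1
    · unfold cell at hn
      rw [Finset.mem_Ioc] at hn ⊢
      rw [add_mul, one_mul, ← add_assoc] at hn
      exact hn
    · intro p hp hpd
      exact hro p hp (dvd_trans hpd (Nat.div_dvd_of_dvd hld))
  exact_mod_cast hcard.trans card_image_le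

/-- the contribution of the numbers with an exceptional host prime -/
lemma mass_BadN (hGB : E.GBounds) (hPB : Env.PairB E.τ E.δ) :
    ∃ J : ℕ, ∀ j : ℕ, J ≤ j → ∀ i k : ℕ, j ≤ i → k < nc E.δ i →
      ∑ n ∈ BadN E j i k, Wc E j n / n ≤ E.w i / 128 := by
  have hδ := E.hδ
  have hτ := E.hτ
  have hδτ := E.hδ'
  have hτ1 := E.hτ'
  obtain ⟨J₀, hJ₀, hJ⟩ := hGB
  obtain ⟨JP, hP⟩ := hPB
  obtain ⟨J₁, hJ₁⟩ := poly_le_two_rpow (E.τ / 50) (by positivity) (30 * 128) 41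
  refine ⟨J₀ + J₁ + JP + E.i₁ + 2, fun j hj i k hji hk => ?_⟩
  obtain ⟨-, hgu0, hgh0, hgu, hgh, hU, hH, -, -⟩ := hJ j (by omega)
  have hf := factor_le E (by omega) hgu hgh hU hH
  have hg : ∀ p, 0 ≤ E.g j p := fun p => add_nonneg (hgu0 p) (hgh0 p)
  have hi1 : (1 : ℝ) ≤ i := by exact_mod_cast (by omega : 1 ≤ i)
  have hi0 : (0 : ℝ) < i := by linarith
  set T : ℝ := 3 * (2 : ℝ) ^ ((1 / 2 - E.δ - E.τ / 25) * i) with hT
  -- the number of exceptional elements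
  have hcard : ((BadN E j i k).card : ℝ) ≤ 5 * i * T := by
    have h1 : BadN E j i k ⊆ ((range (2 * i + 3)).filter (fun i' => j ≤ i')).biUnion (fun i' =>
        (E.Bad i').biUnion (fun k' => CN E j i k i' k')) := by
      intro n hn
      unfold BadN at hn
      rw [mem_filter] at hn
      obtain ⟨hn, i', hi', hji', k', hk', n₁, hn₁, h⟩ := hn
      rw [mem_biUnion]
      refine ⟨i', mem_filter.2 ⟨hi', hji'⟩, mem_biUnion.2 ⟨k', hk', ?_⟩⟩
      unfold CN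
      exact mem_filter.2 ⟨hn, n₁, hn₁, h⟩
    have h2 := (card_le_card h1).trans card_biUnion_le
    have h3 : ((BadN E j i k).card : ℝ) ≤ ∑ i' ∈ (range (2 * i + 3)).filter (fun i' => j ≤ i'),
        (((E.Bad i').biUnion (fun k' => CN E j i k i' k')).card : ℝ) := by exact_mod_cast h2
    refine h3.trans ?_
    have h4 : ∀ i' ∈ (range (2 * i + 3)).filter (fun i' => j ≤ i'),
        (((E.Bad i').biUnion (fun k' => CN E j i k i' k')).card : ℝ) ≤ T := by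
      intro i' hi'
      rw [mem_filter, mem_range] at hi'
      obtain ⟨hi'lt, hji'⟩ := hi'
      have hi'1 : (1 : ℝ) ≤ i' := by exact_mod_cast (by omega : 1 ≤ i')
      have hbad : ((E.Bad i').card : ℝ) ≤ (2 : ℝ) ^ (3 * E.δ * i') := card_bad E (by omega)
      have h5 : ∀ B : ℝ, 0 ≤ B → (∀ k' ∈ E.Bad i', ((CN E j i k i' k').card : ℝ) ≤ B) →
          (((E.Bad i').biUnion (fun k' => CN E j i k i' k')).card : ℝ) ≤
            (2 : ℝ) ^ (3 * E.δ * i') * B := by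
        intro B hB hle
        have h6 : (((E.Bad i').biUnion (fun k' => CN E j i k i' k')).card : ℝ) ≤
            ∑ k' ∈ E.Bad i', ((CN E j i k i' k').card : ℝ) := by
          exact_mod_cast card_biUnion_le
        refine h6.trans ((sum_le_card_nsmul _ _ _ hle).trans ?_)
        rw [nsmul_eq_mul]
        exact mul_le_mul_of_nonneg_right hbad hB
      by_cases hlarge : (1 - E.τ) * i ≤ i'
      · refine (h5 _ (by positivity) fun k' hk' => card_CN_large E hk (bad_lt E hk') hlarge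
          (by omega) (by omega) hP).trans ?_
        have h7 : (i' : ℝ) ≤ 2 * i + 2 := by exact_mod_cast (by omega : i' ≤ 2 * i + 2)
        rw [← Real.rpow_add (by norm_num), ← Real.rpow_add (by norm_num), hT]
        calc (2 : ℝ) ^ (3 * E.δ * i' + ((1 / 2 - E.δ) * i + -(E.τ / 4) * i)) ≤
            (2 : ℝ) ^ (1 + (1 / 2 - E.δ - E.τ / 25) * i) := by
              apply Real.rpow_le_rpow_of_exponent_le (by norm_num)
              nlinarith
          _ = 2 * (2 : ℝ) ^ ((1 / 2 - E.δ - E.τ / 25) * i) := by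
              rw [Real.rpow_add (by norm_num), Real.rpow_one]
          _ ≤ _ := by
              have : (0 : ℝ) < (2 : ℝ) ^ ((1 / 2 - E.δ - E.τ / 25) * i) := by positivity
              linarith
      · by_cases hsmall : (i' : ℝ) + 1 ≤ 1 / 20 * i
        · refine (h5 0 le_rfl fun k' hk' => ?_).trans ?_
          · rw [card_CN_zero E (bad_lt E hk') hsmall]
            simp
          · rw [mul_zero, hT]
            positivity
        · push Not at hsmall hlarge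
          refine (h5 _ (by positivity) fun k' _ => card_CN_small E).trans ?_
          have e1 : (2 : ℝ) ^ (3 * E.δ * i') * ((2 : ℝ) ^ ((1 / 2 - E.δ) * i') *
              ((2 : ℝ) ^ ((1 / 2 - E.δ) * i) * (2 : ℝ) ^ (-(1 / 2 + E.τ) * i') + 1)) =
              (2 : ℝ) ^ (3 * E.δ * i' + (1 / 2 - E.δ) * i' + (1 / 2 - E.δ) * i +
                -(1 / 2 + E.τ) * i') + (2 : ℝ) ^ (3 * E.δ * i' + (1 / 2 - E.δ) * i') := by
            rw [Real.rpow_add (by norm_num), Real.rpow_add (by norm_num),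
              Real.rpow_add (by norm_num)]
            ring
          rw [e1, hT]
          have hA : (2 : ℝ) ^ (3 * E.δ * i' + (1 / 2 - E.δ) * i' + (1 / 2 - E.δ) * i +
                -(1 / 2 + E.τ) * i') ≤ 2 * (2 : ℝ) ^ ((1 / 2 - E.δ - E.τ / 25) * i) := by
            have : 2 * (2 : ℝ) ^ ((1 / 2 - E.δ - E.τ / 25) * i) =
                (2 : ℝ) ^ (1 + (1 / 2 - E.δ - E.τ / 25) * i) := by
              rw [Real.rpow_add (by norm_num) 1, Real.rpow_one]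
            rw [this]
            apply Real.rpow_le_rpow_of_exponent_le (by norm_num)
            nlinarith [mul_pos hτ hi0, mul_pos hδ hi0, mul_nonneg (by linarith : 0 ≤ E.τ / 1000 - E.δ)
              hi0.le, mul_nonneg (by linarith : 0 ≤ E.τ - 2 * E.δ)
              (by linarith : 0 ≤ (i' : ℝ) + 1 - 1 / 20 * i)]
          have hB : (2 : ℝ) ^ (3 * E.δ * i' + (1 / 2 - E.δ) * i') ≤
              (2 : ℝ) ^ ((1 / 2 - E.δ - E.τ / 25) * i) := by
            apply Real.rpow_le_rpow_of_exponent_le (by norm_num)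
            nlinarith [mul_pos hτ hi0, mul_pos hδ hi0, mul_nonneg (by linarith : 0 ≤ E.τ / 1000 - E.δ)
              hi0.le, mul_nonneg (by linarith : 0 ≤ 1 / 2 + 2 * E.δ)
              (by linarith : 0 ≤ (1 - E.τ) * i - i'), mul_pos (mul_pos hτ hδ) hi0]
          linarith
    refine (sum_le_card_nsmul _ _ _ h4).trans ?_
    rw [nsmul_eq_mul]
    have hc : ((((range (2 * i + 3)).filter (fun i' => j ≤ i')).card : ℕ) : ℝ) ≤ 5 * i := by
      have h := card_filter_le (range (2 * i + 3)) (fun i' => j ≤ i')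
      rw [card_range] at h
      have h' : ((range (2 * i + 3)).filter (fun i' => j ≤ i')).card ≤ 5 * i := by omega
      exact_mod_cast h'
    exact mul_le_mul_of_nonneg_right hc (by rw [hT]; positivity)
  have h1 : ∑ n ∈ BadN E j i k, Wc E j n / n ≤
      ((BadN E j i k).card : ℝ) * (2 * (2 : ℝ) ^ (9 * E.δ * i) / 2 ^ i) := by
    rw [← nsmul_eq_mul]
    apply sum_le_card_nsmul
    intro n hn
    exact Wc_cell_le E hg hf hk (mem_filter.1 hn).1
  refine h1.trans ((mul_le_mul_of_nonneg_right hcard (by positivity)).trans ?_)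
  have h2 := hJ₁ i (by omega)
  unfold Env.w
  rw [div_div, le_div_iff₀ (by positivity), hT]
  have e1 : 5 * (i : ℝ) * (3 * (2 : ℝ) ^ ((1 / 2 - E.δ - E.τ / 25) * i)) *
      (2 * (2 : ℝ) ^ (9 * E.δ * i) / 2 ^ i) * ((i : ℝ) ^ 40 * 128) =
      ((2 : ℝ) ^ ((1 / 2 - E.δ - E.τ / 25) * i) * (2 : ℝ) ^ (9 * E.δ * i) / 2 ^ i) *
        (30 * 128 * (i : ℝ) ^ 41) := by ring
  rw [e1]
  refine (mul_le_mul_of_nonneg_left h2 (by positivity)).trans ?_
  rw [← Real.rpow_natCast 2 i, ← Real.rpow_add (by norm_num), ← Real.rpow_sub (by norm_num),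
    ← Real.rpow_add (by norm_num)]
  apply Real.rpow_le_rpow_of_exponent_le (by norm_num)
  nlinarith

end Pool.Agent.U317.CM
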