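import Pool.Agent.U317.CM.C4

/-!
# Nonsquarefree numbers with a small square divisor: small control primes
-/

set_option autoImplicit false

namespace Pool.Agent.U317.CM

open Finset Filter Topology
open scoped Classical
open Pool.Agent.W76.MO
open Pool.Agent.W640.MO (poly_le_two_rpow factor_le card_mult_le)
open Pool.Agent.W683.MO (hh_le lt_hh cell_sub card_cell bad_lt card_bad δ_half w_nonneg large
  B_point prod_one_add_le_exp card_mult A_bound exp_id1 gu_nonneg gh_nonneg)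

theorem B_int (E : Env) (hG : E.GBounds) : ∃ J : ℕ, 1 ≤ J ∧ ∀ j : ℕ, J ≤ j → ∀ i : ℕ, j ≤ i →
    ∀ a L : ℕ, (2 : ℝ) ^ (3 / 10 * (i : ℝ)) ≤ L → a + L ≤ 2 ^ (i + 1) → ∑ n ∈ Ioc a (a + L),
      ∏ p ∈ n.primeFactors.filter (fun p : ℕ => (p : ℝ) ≤ (2 : ℝ) ^ (1 / 20 * (i : ℝ))),
        (1 + 2 * (p * E.gh j p)) ≤ 5 * L := by
  have hδ := E.hδ
  have hδt := E.hδ'
  have hτ := E.hτ
  have hτ' := E.hτ'
  obtain ⟨J0, hJ0, hJ⟩ := hG
  obtain ⟨J1, hJ1⟩ := large (E.τ / 16 - 9 * E.δ) 8 0 (by linarith)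
  refine ⟨J0 + J1 + 3, by omega, fun j hj i hij a L hL haL => ?_⟩
  obtain ⟨-, -, g3, -, g5, -, g7, g8, -⟩ := hJ j (by omega)
  have hjR : (3 : ℝ) ≤ j := by exact_mod_cast (by omega : 3 ≤ j)
  have hh0 : (0 : ℝ) < L := lt_of_lt_of_le (by positivity) hL
  set b : ℕ → ℝ := fun q => 2 * (q * E.gh j q) with hb
  have hb0 : ∀ q, 0 ≤ b q := by
    intro q
    have := g3 q
    simp only [hb]
    positivity
  set Q : Finset ℕ := (range (2 ^ i + 1)).filter (fun q : ℕ =>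
    (q : ℝ) ≤ (2 : ℝ) ^ (1 / 20 * (i : ℝ)) ∧ E.gh j q ≠ 0) with hQ
  have hQp : ∀ q ∈ Q, q.Prime := by
    intro q hq
    rw [hQ, mem_filter] at hq
    exact (g5 q hq.2.2).1.1
  have hiR : (0 : ℝ) ≤ i := by positivity
  have e1 : ∀ n ∈ Ioc a (a + L),
      ∏ p ∈ n.primeFactors.filter (fun p : ℕ => (p : ℝ) ≤ (2 : ℝ) ^ (1 / 20 * (i : ℝ))),
        (1 + 2 * (p * E.gh j p)) = ∏ q ∈ Q.filter (fun q => q ∣ n), (1 + b q) := by
    intro n hn
    have hn2 : 1 ≤ n ∧ n ≤ 2 ^ (i + 1) := by rw [mem_Ioc] at hn; omega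
    have e2 : Q.filter (fun q => q ∣ n) = (n.primeFactors.filter
        (fun p : ℕ => (p : ℝ) ≤ (2 : ℝ) ^ (1 / 20 * (i : ℝ)))).filter
          (fun p => E.gh j p ≠ 0) := by
      ext q
      simp only [hQ, mem_filter, Nat.mem_primeFactors, mem_range]
      constructor
      · rintro ⟨⟨h1, h2, h3⟩, h4⟩
        exact ⟨⟨⟨(g5 q h3).1.1, h4, by omega⟩, h2⟩, h3⟩
      · rintro ⟨⟨⟨h1, h2, h3⟩, h4⟩, h5⟩
        refine ⟨⟨?_, h4, h5⟩, h2⟩
        have h6 : (q : ℝ) ≤ 2 ^ i := by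
          refine h4.trans ?_
          rw [← Real.rpow_natCast]
          apply Real.rpow_le_rpow_of_exponent_le (by norm_num)
          linarith
        have h7 : q ≤ 2 ^ i := by exact_mod_cast h6
        omega
    rw [e2]
    symm
    apply prod_filter_of_ne
    intro p _ hne h0
    apply hne
    simp only [hb]
    rw [h0]; ring
  rw [sum_congr rfl e1]
  set Z1 : ℝ := (2 : ℝ) ^ (1 / 4 * (i : ℝ)) with hZ1
  set Z2 : ℝ := (2 : ℝ) ^ (3 / 10 * (i : ℝ)) with hZ2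
  set K : ℝ := 2 * (2 : ℝ) ^ (9 * E.δ * i) with hK
  set W1 := Q.powerset.filter (fun s => ((∏ q ∈ s, q : ℕ) : ℝ) ≤ Z1) with hW1
  set W2 := Q.powerset.filter (fun s => Z1 < ((∏ q ∈ s, q : ℕ) : ℝ) ∧
          ((∏ q ∈ s, q : ℕ) : ℝ) ≤ Z2) with hW2
  have hZ12 : Z1 ≤ Z2 := by
    apply Real.rpow_le_rpow_of_exponent_le (by norm_num)
    linarith
  have hpt : ∀ n ∈ Ioc a (a + L), ∏ q ∈ Q.filter (fun q => q ∣ n), (1 + b q) ≤
      ∑ s ∈ W1, (∏ q ∈ s, b q) * (if (∏ q ∈ s, q) ∣ n then 1 else 0) +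
      K * ∑ s ∈ W2, (if (∏ q ∈ s, q) ∣ n then (1 : ℝ) else 0) := by
    intro n hn
    have hn2 : 1 ≤ n ∧ n ≤ 2 ^ (i + 1) := by rw [mem_Ioc] at hn; omega
    apply B_point b hb0 Q hQp (9 * E.δ) Z1 Z2 K ((2 : ℝ) ^ (1 / 20 * (i : ℝ))) (by linarith)
    · intro q hq
      rw [hQ, mem_filter] at hq
      exact (g7 q hq.2.2).2
    · intro q hq
      rw [hQ, mem_filter] at hq
      exact hq.2.1
    · exact Real.one_le_rpow (by norm_num) (by positivity)
    · rw [hZ1, hZ2, ← Real.rpow_add (by norm_num)]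
      apply le_of_eq
      congr 1; ring
    · omega
    · have hnR : (n : ℝ) ≤ (2 : ℝ) ^ ((i : ℝ) + 1) := by
        have : (n : ℝ) ≤ 2 ^ (i + 1) := by exact_mod_cast hn2.2
        rw [← Real.rpow_natCast] at this
        push_cast at this
        exact this
      calc (n : ℝ) ^ (9 * E.δ) ≤ ((2 : ℝ) ^ ((i : ℝ) + 1)) ^ (9 * E.δ) :=
            Real.rpow_le_rpow (by positivity) hnR (by linarith)
        _ = (2 : ℝ) ^ (((i : ℝ) + 1) * (9 * E.δ)) := by rw [← Real.rpow_mul (by norm_num)]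
        _ ≤ (2 : ℝ) ^ (1 + 9 * E.δ * i) := by
            apply Real.rpow_le_rpow_of_exponent_le (by norm_num)
            nlinarith
        _ = K := by rw [hK, Real.rpow_add (by norm_num), Real.rpow_one]
  refine (sum_le_sum hpt).trans ?_
  rw [sum_add_distrib, ← mul_sum, sum_comm (s := Ioc a (a + L)) (t := W1),
    sum_comm (s := Ioc a (a + L)) (t := W2)]
  -- counting
  have hZ2h : Z2 ≤ L := hL
  have hcount : ∀ s ∈ Q.powerset, ((∏ q ∈ s, q : ℕ) : ℝ) ≤ Z2 →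
      ∑ n ∈ Ioc a (a + L), (if (∏ q ∈ s, q) ∣ n then (1 : ℝ) else 0) ≤
        2 * L / ((∏ q ∈ s, q : ℕ) : ℝ) := by
    intro s hs hle
    rw [mem_powerset] at hs
    have hpos : 0 < ∏ q ∈ s, q := prod_pos (fun q hq => (hQp q (hs hq)).pos)
    have hposR : (0 : ℝ) < ((∏ q ∈ s, q : ℕ) : ℝ) := by exact_mod_cast hpos
    rw [sum_boole]
    have h1 := card_mult a L (∏ q ∈ s, q) hpos
    refine h1.trans ?_
    have h3 : (1 : ℝ) ≤ L / ((∏ q ∈ s, q : ℕ) : ℝ) := by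
      rw [le_div_iff₀ hposR, one_mul]
      exact hle.trans hZ2h
    have h4 : 2 * (L : ℝ) / ((∏ q ∈ s, q : ℕ) : ℝ) =
        L / ((∏ q ∈ s, q : ℕ) : ℝ) + L / ((∏ q ∈ s, q : ℕ) : ℝ) := by ring
    rw [h4]
    linarith
  have hexp1 : Real.exp (1 / j) ≤ 2 := by
    have h1 : (1 : ℝ) / j ≤ 1 / 3 := one_div_le_one_div_of_le (by norm_num) hjR
    calc Real.exp (1 / j) ≤ Real.exp (Real.log 2) := by
          apply Real.exp_le_exp.2
          have := Real.log_two_gt_d9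
          linarith
      _ = 2 := Real.exp_log (by norm_num)
  have hexp2 : Real.exp (2 / j) ≤ 2 := by
    have h1 : (2 : ℝ) / j ≤ 2 / 3 := div_le_div_of_nonneg_left (by norm_num) (by norm_num) hjR
    calc Real.exp (2 / j) ≤ Real.exp (Real.log 2) := by
          apply Real.exp_le_exp.2
          have := Real.log_two_gt_d9
          linarith
      _ = 2 := Real.exp_log (by norm_num)
  have g8Q := g8 Q
  have hqpos : ∀ q ∈ Q, (1 : ℝ) ≤ q := fun q hq => by exact_mod_cast (hQp q hq).one_lt.le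
  -- first sum
  have hS1 : ∑ s ∈ W1, ∑ n ∈ Ioc a (a + L),
      (∏ q ∈ s, b q) * (if (∏ q ∈ s, q) ∣ n then (1 : ℝ) else 0) ≤ 4 * L := by
    have h1 : ∀ s ∈ W1, ∑ n ∈ Ioc a (a + L),
        (∏ q ∈ s, b q) * (if (∏ q ∈ s, q) ∣ n then (1 : ℝ) else 0) ≤
        2 * L * ∏ q ∈ s, (b q / q) := by
      intro s hs
      rw [hW1, mem_filter] at hs
      rw [← mul_sum]
      have h2 := hcount s hs.1 (hs.2.trans hZ12)
      have h3 : 0 ≤ ∏ q ∈ s, b q := prod_nonneg (fun q _ => hb0 q)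
      refine (mul_le_mul_of_nonneg_left h2 h3).trans (le_of_eq ?_)
      rw [prod_div_distrib]
      push_cast
      ring
    refine (sum_le_sum h1).trans ?_
    rw [← mul_sum]
    have h4 : ∑ s ∈ W1, ∏ q ∈ s, (b q / q) ≤ ∑ s ∈ Q.powerset, ∏ q ∈ s, (b q / q) := by
      apply sum_le_sum_of_subset_of_nonneg (filter_subset _ _)
      intro s _ _
      exact prod_nonneg (fun q _ => div_nonneg (hb0 q) (Nat.cast_nonneg q))
    rw [← prod_one_add] at h4
    have h5 := prod_one_add_le_exp Q (fun q => b q / q)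
      (fun q => div_nonneg (hb0 q) (Nat.cast_nonneg q))
    have h6 : ∑ q ∈ Q, b q / q ≤ 2 / j := by
      have h7 : ∀ q ∈ Q, b q / q ≤ 2 * ((q * E.gh j q) * (q : ℝ) ^ (-1 + E.τ / 4)) := by
        intro q hq
        have h8 := hqpos q hq
        have h9 : (q : ℝ) ^ (-1 + E.τ / 4) ≥ (q : ℝ)⁻¹ := by
          rw [← Real.rpow_neg_one]
          apply Real.rpow_le_rpow_of_exponent_le h8
          linarith
        simp only [hb]
        have h10 : 0 ≤ (q : ℝ) * E.gh j q := mul_nonneg (by linarith) (g3 q)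
        rw [div_eq_mul_inv]
        nlinarith
      refine (sum_le_sum h7).trans ?_
      rw [← mul_sum]
      have h11 : (2 : ℝ) / j = 2 * (1 / j) := by ring
      rw [h11]
      exact mul_le_mul_of_nonneg_left g8Q (by norm_num)
    have h12 : ∑ s ∈ W1, ∏ q ∈ s, (b q / q) ≤ 2 :=
      h4.trans (h5.trans ((Real.exp_le_exp.2 h6).trans hexp2))
    nlinarith
  -- second sum
  have hS2 : K * ∑ s ∈ W2, ∑ n ∈ Ioc a (a + L), (if (∏ q ∈ s, q) ∣ n then (1 : ℝ) else 0) ≤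
      L := by
    have h1 : ∀ s ∈ W2, ∑ n ∈ Ioc a (a + L), (if (∏ q ∈ s, q) ∣ n then (1 : ℝ) else 0) ≤
        2 * L * (2 : ℝ) ^ (-(E.τ / 16) * (i : ℝ)) * ∏ q ∈ s, (q : ℝ) ^ (-1 + E.τ / 4) := by
      intro s hs
      rw [hW2, mem_filter] at hs
      obtain ⟨hs1, hs2, hs3⟩ := hs
      refine (hcount s hs1 hs3).trans ?_
      rw [Real.finsetProd_rpow _ _ (fun q _ => Nat.cast_nonneg q)]
      have hd : ((∏ q ∈ s, q : ℕ) : ℝ) = ∏ q ∈ s, (q : ℝ) := by push_cast; rfl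
      rw [hd]
      rw [hd] at hs2
      set d : ℝ := ∏ q ∈ s, (q : ℝ) with hdd
      have hZpos : (0 : ℝ) < Z1 := by positivity
      have hdpos : 0 < d := hZpos.trans hs2
      have h2 : d ^ (-1 + E.τ / 4) = d⁻¹ * d ^ (E.τ / 4) := by
        rw [Real.rpow_add hdpos, Real.rpow_neg_one]
      have h3 : (2 : ℝ) ^ (E.τ / 16 * (i : ℝ)) ≤ d ^ (E.τ / 4) := by
        have h4 : (2 : ℝ) ^ (E.τ / 16 * (i : ℝ)) = Z1 ^ (E.τ / 4) := by
          rw [hZ1, ← Real.rpow_mul (by norm_num)]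
          congr 1; ring
        rw [h4]
        exact Real.rpow_le_rpow hZpos.le hs2.le (by linarith)
      have h5 : (2 : ℝ) ^ (-(E.τ / 16) * (i : ℝ)) * (2 : ℝ) ^ (E.τ / 16 * (i : ℝ)) = 1 := by
        rw [← Real.rpow_add (by norm_num)]
        rw [show -(E.τ / 16) * (i : ℝ) + E.τ / 16 * (i : ℝ) = 0 by ring, Real.rpow_zero]
      rw [h2]
      have h6 : 2 * (L : ℝ) / d = 2 * L * d⁻¹ *
          ((2 : ℝ) ^ (-(E.τ / 16) * (i : ℝ)) * (2 : ℝ) ^ (E.τ / 16 * (i : ℝ))) := by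
        rw [h5]; ring
      rw [h6]
      have h7 : 2 * (L : ℝ) * d⁻¹ *
          ((2 : ℝ) ^ (-(E.τ / 16) * (i : ℝ)) * (2 : ℝ) ^ (E.τ / 16 * (i : ℝ))) ≤
          2 * (L : ℝ) * d⁻¹ *
          ((2 : ℝ) ^ (-(E.τ / 16) * (i : ℝ)) * d ^ (E.τ / 4)) := by
        apply mul_le_mul_of_nonneg_left _ (by positivity)
        exact mul_le_mul_of_nonneg_left h3 (by positivity)
      refine h7.trans (le_of_eq ?_)
      ring
    have h2 : ∑ s ∈ W2, ∑ n ∈ Ioc a (a + L), (if (∏ q ∈ s, q) ∣ n then (1 : ℝ) else 0) ≤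
        2 * L * (2 : ℝ) ^ (-(E.τ / 16) * (i : ℝ)) * 2 := by
      refine (sum_le_sum h1).trans ?_
      rw [← mul_sum]
      apply mul_le_mul_of_nonneg_left _ (by positivity)
      have h4 : ∑ s ∈ W2, ∏ q ∈ s, (q : ℝ) ^ (-1 + E.τ / 4) ≤
          ∑ s ∈ Q.powerset, ∏ q ∈ s, (q : ℝ) ^ (-1 + E.τ / 4) := by
        apply sum_le_sum_of_subset_of_nonneg (filter_subset _ _)
        intro s _ _
        exact prod_nonneg (fun q _ => by positivity)
      rw [← prod_one_add] at h4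
      have h5 := prod_one_add_le_exp Q (fun q => (q : ℝ) ^ (-1 + E.τ / 4))
        (fun q => by positivity)
      have h6 : ∑ q ∈ Q, (q : ℝ) ^ (-1 + E.τ / 4) ≤ 1 / j := by
        refine le_trans (sum_le_sum ?_) g8Q
        intro q hq
        rw [hQ, mem_filter] at hq
        have h7 := (g5 q hq.2.2).2.2
        have h8 : 0 ≤ (q : ℝ) ^ (-1 + E.τ / 4) := by positivity
        nlinarith
      exact h4.trans (h5.trans ((Real.exp_le_exp.2 h6).trans hexp1))
    have hbig := hJ1 i (by omega)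
    rw [pow_zero, mul_one] at hbig
    have h3 : (2 : ℝ) ^ (9 * E.δ * i) * (2 : ℝ) ^ ((E.τ / 16 - 9 * E.δ) * i) *
        (2 : ℝ) ^ (-(E.τ / 16) * (i : ℝ)) = 1 := by
      rw [← Real.rpow_add (by norm_num), ← Real.rpow_add (by norm_num)]
      rw [show 9 * E.δ * i + (E.τ / 16 - 9 * E.δ) * i + -(E.τ / 16) * (i : ℝ) = 0 by ring,
        Real.rpow_zero]
    have hKpos : 0 ≤ K := by positivity
    refine (mul_le_mul_of_nonneg_left h2 hKpos).trans ?_
    rw [hK]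
    have h4 : 2 * (2 : ℝ) ^ (9 * E.δ * i) * (2 * L * (2 : ℝ) ^ (-(E.τ / 16) * (i : ℝ)) * 2)
        = L * ((2 : ℝ) ^ (9 * E.δ * i) * 8 * (2 : ℝ) ^ (-(E.τ / 16) * (i : ℝ))) := by ring
    rw [h4]
    have h5 : (2 : ℝ) ^ (9 * E.δ * i) * 8 * (2 : ℝ) ^ (-(E.τ / 16) * (i : ℝ)) ≤ 1 := by
      rw [← h3]
      apply mul_le_mul_of_nonneg_right _ (by positivity)
      exact mul_le_mul_of_nonneg_left hbig (by positivity)
    nlinarith
  linarith

variable (E : Env)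

/-- the completely multiplicative weight of the small control primes -/
noncomputable def Ws (j i n : ℕ) : ℝ := cm (fun p => 1 + 2 * (p * E.gs j i p)) n

lemma gs_le_g (j i p : ℕ) : E.gs j i p ≤ E.g j p := by
  unfold Env.gs Env.g
  have h1 := gu_nonneg E j p
  have h2 := gh_nonneg E j p
  split_ifs <;> linarith

lemma gs_nonneg (j i p : ℕ) : 0 ≤ E.gs j i p := by
  unfold Env.gs
  have h1 := gu_nonneg E j p
  have h2 := gh_nonneg E j p
  split_ifs <;> linarith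

lemma Ws_le_Wc (j i n : ℕ) : Ws E j i n ≤ Wc E j n := by
  refine cm_le _ _ n (fun p _ => ?_) fun p _ => ?_
  · have := mul_nonneg (Nat.cast_nonneg (α := ℝ) p) (gs_nonneg E j i p)
    linarith
  · have := mul_le_mul_of_nonneg_left (gs_le_g E j i p) (Nat.cast_nonneg (α := ℝ) p)
    linarith

lemma Ws_pos (j i n : ℕ) : 1 ≤ Ws E j i n :=
  one_le_cm _ n fun p _ => by
    have := mul_nonneg (Nat.cast_nonneg (α := ℝ) p) (gs_nonneg E j i p)
    linarith

/-- the nonsquarefree elements of a cell without a large square divisor -/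
noncomputable def SmN (i k : ℕ) : Finset ℕ := (cell E.δ i k).filter (fun n =>
  ¬ Squarefree n ∧ ¬ ∃ d, ⌈(2 : ℝ) ^ (10 * E.δ * i)⌉₊ ≤ d ∧ d ^ 2 ∣ n)

lemma Ws_sqf (j i : ℕ) {m : ℕ} (hm : Squarefree m) : Ws E j i m ≤
    (∏ p ∈ m.primeFactors.filter (fun p : ℕ => (p : ℝ) ≤ (2 : ℝ) ^ (3 / 5 * (i : ℝ))),
        (1 + 2 * (p * E.gu j p))) *
      ∏ p ∈ m.primeFactors.filter (fun p : ℕ => (p : ℝ) ≤ (2 : ℝ) ^ (1 / 20 * (i : ℝ))),
        (1 + 2 * (p * E.gh j p)) := by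
  unfold Ws
  rw [cm_squarefree _ hm, prod_filter, prod_filter, ← prod_mul_distrib]
  apply Finset.prod_le_prod
  · intro p _
    have := mul_nonneg (Nat.cast_nonneg (α := ℝ) p) (gs_nonneg E j i p)
    linarith
  · intro p _
    unfold Env.gs
    have h3 : 0 ≤ (p : ℝ) * E.gu j p := mul_nonneg (Nat.cast_nonneg p) (gu_nonneg E j p)
    have h4 : 0 ≤ (p : ℝ) * E.gh j p := mul_nonneg (Nat.cast_nonneg p) (gh_nonneg E j p)
    split_ifs
    · nlinarith [mul_nonneg h3 h4]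
    · nlinarith
    · nlinarith
    · nlinarith

/-- the contribution of the small control primes -/
lemma mass_SmN (hGB : E.GBounds) : ∃ J : ℕ, ∀ j : ℕ, J ≤ j → ∀ i k : ℕ, j ≤ i → k < nc E.δ i →
    ∑ n ∈ SmN E i k, Ws E j i n / n ≤ E.w i / 128 := by
  have hδ := E.hδ
  have hδ' := delta_small E
  obtain ⟨JA, -, hA⟩ := A_bound E hGB
  obtain ⟨JB, -, hB⟩ := B_int E hGB
  obtain ⟨J₀, hJ₀, hJ⟩ := hGB
  refine ⟨JA + JB + J₀ + 10, fun j hj i k hji hk => ?_⟩
  obtain ⟨-, hgu0, hgh0, hgu, hgh, hU, hH, -, -⟩ := hJ j (by omega)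
  have hf := factor_le E (by omega) hgu hgh hU hH
  have hg : ∀ p, 0 ≤ E.g j p := fun p => add_nonneg (hgu0 p) (hgh0 p)
  have hA' := hA j (by omega) i hji
  have hB' := hB j (by omega) i hji
  have hi10 : (10 : ℝ) ≤ i := by exact_mod_cast (by omega : 10 ≤ i)
  set D : ℕ := ⌈(2 : ℝ) ^ (10 * E.δ * i)⌉₊ with hD
  set h : ℕ := hh E.δ i with hh'
  set a : ℕ := 2 ^ i + k * h with ha
  set c : ℝ := (2 : ℝ) ^ (E.δ / 2 * i) / (i : ℝ) ^ 50 with hc
  have hc0 : 0 < c := by positivity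
  set B : ℕ → ℝ := fun m => ∏ p ∈ m.primeFactors.filter
    (fun p : ℕ => (p : ℝ) ≤ (2 : ℝ) ^ (1 / 20 * (i : ℝ))), (1 + 2 * (p * E.gh j p)) with hBdef
  have hB0 : ∀ m, 0 ≤ B m := fun m => prod_nonneg fun p _ => by
    have := mul_nonneg (Nat.cast_nonneg (α := ℝ) p) (hgh0 p)
    linarith
  have hnc : nc E.δ i * h = 2 ^ i := Pool.Agent.W683.MO.nc_mul hδ.le i
  have hah : a + h ≤ 2 ^ (i + 1) := by
    have h2 : (k + 1) * h ≤ nc E.δ i * h := Nat.mul_le_mul_right _ hk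
    have h3 : (k + 1) * h = k * h + h := by ring
    have h4 : 2 ^ (i + 1) = 2 * 2 ^ i := by ring
    omega
  have hcell : cell E.δ i k = Ioc a (a + h) := by
    unfold cell
    rw [show 2 ^ i + (k + 1) * hh E.δ i = a + h by rw [ha, hh']; ring]
  have hmem : ∀ n ∈ SmN E i k, a < n ∧ n ≤ a + h ∧ n ≠ 0 ∧ 2 ≤ (sp n).1 ∧ (sp n).1 < D := by
    intro n hn
    unfold SmN at hn
    rw [mem_filter, hcell, mem_Ioc] at hn
    obtain ⟨⟨h1, h2⟩, h3, h4⟩ := hn
    have hn0 : n ≠ 0 := by omega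
    obtain ⟨h5, h6, h7, h8⟩ := sp_spec hn0
    refine ⟨h1, h2, hn0, ?_, ?_⟩
    · by_contra hcon
      have h9 : (sp n).1 = 1 := by omega
      rw [h9, one_pow, one_mul] at h7
      rw [h7] at h8
      exact h3 h8
    · by_contra hcon
      push Not at hcon
      exact h4 ⟨(sp n).1, hcon, ⟨(sp n).2, h7.symm⟩⟩
  have hmaps : ∀ n ∈ SmN E i k, (sp n).1 ∈ Ico 2 D := fun n hn => by
    obtain ⟨-, -, -, h1, h2⟩ := hmem n hn
    exact mem_Ico.2 ⟨h1, h2⟩
  rw [← sum_fiberwise_of_maps_to hmaps]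
  have hfib : ∀ d ∈ Ico 2 D, ∑ n ∈ (SmN E i k).filter (fun n => (sp n).1 = d), Ws E j i n / n ≤
      (1 / 2 ^ i * c * (5 * h)) * (2 * (1 / (d : ℝ))) := by
    intro d hd
    rw [mem_Ico] at hd
    obtain ⟨hd2, hdD⟩ := hd
    have hd0 : d ≠ 0 := by omega
    have hdR : (2 : ℝ) ≤ d := by exact_mod_cast hd2
    have hdlt : (d : ℝ) < (2 : ℝ) ^ (10 * E.δ * i) := Nat.lt_ceil.1 hdD
    have hd2pos : 0 < d ^ 2 := by positivity
    set L : ℕ := h / d ^ 2 + 1 with hL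
    have hdsq : (d : ℝ) ^ 2 ≤ (2 : ℝ) ^ (20 * E.δ * i) := by
      calc (d : ℝ) ^ 2 ≤ ((2 : ℝ) ^ (10 * E.δ * i)) ^ 2 := pow_le_pow_left₀ (by positivity) hdlt.le 2
        _ = (2 : ℝ) ^ (20 * E.δ * i) := by
          rw [← Real.rpow_natCast, ← Real.rpow_mul (by norm_num)]
          congr 1
          push_cast
          ring
    have hhR : (2 : ℝ) ^ (3 / 10 * (i : ℝ)) * (d : ℝ) ^ 2 ≤ h := by
      have h1 := lt_hh (δ := E.δ) i
      have h2 : (2 : ℝ) ^ (3 / 10 * (i : ℝ)) * (d : ℝ) ^ 2 * 2 ≤ (2 : ℝ) ^ ((1 / 2 - E.δ) * i) := by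
        calc (2 : ℝ) ^ (3 / 10 * (i : ℝ)) * (d : ℝ) ^ 2 * 2 ≤
            (2 : ℝ) ^ (3 / 10 * (i : ℝ)) * (2 : ℝ) ^ (20 * E.δ * i) * (2 : ℝ) ^ (1 : ℝ) := by
              rw [Real.rpow_one]
              gcongr
          _ = (2 : ℝ) ^ (3 / 10 * (i : ℝ) + 20 * E.δ * i + 1) := by
              rw [Real.rpow_add (by norm_num), Real.rpow_add (by norm_num)]
          _ ≤ _ := by
              apply Real.rpow_le_rpow_of_exponent_le (by norm_num)
              nlinarith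
      rw [hh']
      linarith
    have hdivlt : (h : ℝ) / (d : ℝ) ^ 2 < L := by
      rw [div_lt_iff₀ (by positivity)]
      have h1 := Nat.lt_div_mul_add hd2pos (a := h)
      have h2 : h < L * d ^ 2 := by
        rw [hL, add_mul, one_mul]
        exact h1
      exact_mod_cast h2
    have hdivle : (L : ℝ) ≤ 2 * h / (d : ℝ) ^ 2 := by
      have h1 : ((h / d ^ 2 : ℕ) : ℝ) ≤ (h : ℝ) / ((d ^ 2 : ℕ) : ℝ) := Nat.cast_div_le
      push_cast at h1
      have h2 : (1 : ℝ) ≤ (h : ℝ) / (d : ℝ) ^ 2 := by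
        rw [le_div_iff₀ (by positivity), one_mul]
        refine le_trans ?_ hhR
        have h3 : (1 : ℝ) ≤ (2 : ℝ) ^ (3 / 10 * (i : ℝ)) :=
          Real.one_le_rpow (by norm_num) (by positivity)
        nlinarith [sq_nonneg (d : ℝ)]
      rw [hL]
      push_cast
      rw [mul_div_assoc]
      linarith
    have hLlow : (2 : ℝ) ^ (3 / 10 * (i : ℝ)) ≤ L := by
      refine le_trans ?_ hdivlt.le
      rw [le_div_iff₀ (by positivity)]
      exact hhR
    have hLup : a / d ^ 2 + L ≤ 2 ^ (i + 1) := by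
      have h1 : a / d ^ 2 + h / d ^ 2 ≤ (a + h) / d ^ 2 := Nat.add_div_le_add_div _ _ _
      have h2 : (a + h) / d ^ 2 ≤ (a + h) / 4 := by
        apply Nat.div_le_div_left _ (by norm_num)
        nlinarith
      have h3 : 1 ≤ 2 ^ i := Nat.one_le_two_pow
      have h4 : 2 ^ (i + 1) = 2 * 2 ^ i := by ring
      rw [hL]
      omega
    have hsumB := hB' (a / d ^ 2) L hLlow hLup
    -- pointwise
    have hpt : ∀ n ∈ (SmN E i k).filter (fun n => (sp n).1 = d), Ws E j i n / n ≤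
        (1 / 2 ^ i * c * d) * B (sp n).2 := by
      intro n hn
      rw [mem_filter] at hn
      obtain ⟨hn, hnd⟩ := hn
      obtain ⟨h1, h2, h3, -, -⟩ := hmem n hn
      obtain ⟨h4, h5, h6, h7⟩ := sp_spec h3
      rw [hnd] at h4 h6
      have hmn : (sp n).2 ≤ n := Nat.le_of_dvd (Nat.pos_of_ne_zero h3) ⟨d ^ 2, by rw [mul_comm, h6]⟩
      have e1 : Ws E j i n = Ws E j i d ^ 2 * Ws E j i (sp n).2 := by
        conv_lhs => rw [← h6]
        unfold Ws
        rw [cm_mul _ (pow_ne_zero 2 h4) h5, pow_two, cm_mul _ h4 h4, pow_two]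
      have h8 : Ws E j i d ^ 2 ≤ d := by
        have h9 : Ws E j i d ≤ (d : ℝ) ^ (9 * E.δ) := (Ws_le_Wc E j i d).trans (Wc_le E j hg hf h4)
        have h10 := Ws_pos E j i d
        calc Ws E j i d ^ 2 ≤ ((d : ℝ) ^ (9 * E.δ)) ^ 2 := pow_le_pow_left₀ (by linarith) h9 2
          _ = (d : ℝ) ^ (18 * E.δ) := by
              rw [← Real.rpow_natCast, ← Real.rpow_mul (by positivity)]
              congr 1
              push_cast
              ring
          _ ≤ (d : ℝ) ^ (1 : ℝ) := Real.rpow_le_rpow_of_exponent_le (by linarith) (by linarith)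
          _ = d := Real.rpow_one _
      have h9 : Ws E j i (sp n).2 ≤ c * B (sp n).2 := by
        refine (Ws_sqf E j i h7).trans ?_
        exact mul_le_mul_of_nonneg_right (hA' (sp n).2 (by omega) (by omega)) (hB0 _)
      have h10 : (2 : ℝ) ^ i ≤ n := by
        have : 2 ^ i ≤ n := by
          have : 2 ^ i ≤ a := Nat.le_add_right _ _
          omega
        exact_mod_cast this
      have h11 := Ws_pos E j i d
      have h12 := Ws_pos E j i (sp n).2
      rw [e1]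
      calc Ws E j i d ^ 2 * Ws E j i (sp n).2 / n ≤ (d * (c * B (sp n).2)) / 2 ^ i := by
            apply div_le_div₀ _ _ (by positivity) h10
            · have := hB0 (sp n).2
              positivity
            · exact mul_le_mul h8 h9 (by linarith) (by positivity)
        _ = _ := by ring
    refine (sum_le_sum hpt).trans ?_
    rw [← mul_sum]
    have hinj : Set.InjOn (fun n => (sp n).2)
        (((SmN E i k).filter (fun n => (sp n).1 = d) : Finset ℕ) : Set ℕ) := by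
      intro n hn n' hn' he
      simp only [coe_filter, Set.mem_setOf_eq] at hn hn'
      have e1 := (sp_spec (hmem n hn.1).2.2.1).2.2.1
      have e2 := (sp_spec (hmem n' hn'.1).2.2.1).2.2.1
      simp only at he
      rw [← e1, ← e2, hn.2, hn'.2, he]
    have e2 : ∑ n ∈ (SmN E i k).filter (fun n => (sp n).1 = d), B (sp n).2 =
        ∑ m ∈ ((SmN E i k).filter (fun n => (sp n).1 = d)).image (fun n => (sp n).2), B m := by
      rw [sum_image hinj]
    have hle : ∑ n ∈ (SmN E i k).filter (fun n => (sp n).1 = d), B (sp n).2 ≤ 5 * L := by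
      rw [e2]
      refine le_trans (sum_le_sum_of_subset_of_nonneg ?_ fun m _ _ => hB0 m) hsumB
      intro m hm
      rw [mem_image] at hm
      obtain ⟨n, hn, rfl⟩ := hm
      rw [mem_filter] at hn
      obtain ⟨hn, hnd⟩ := hn
      obtain ⟨h1, h2, h3, -, -⟩ := hmem n hn
      obtain ⟨h4, h5, h6, h7⟩ := sp_spec h3
      rw [hnd] at h6
      rw [mem_Ioc]
      constructor
      · apply Nat.div_lt_of_lt_mul
        rw [h6]
        exact h1
      · have h8 : (sp n).2 ≤ (a + h) / d ^ 2 := by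
          rw [Nat.le_div_iff_mul_le hd2pos, mul_comm, h6]
          exact h2
        refine h8.trans ?_
        rw [Nat.add_div hd2pos, hL]
        split_ifs <;> omega
    refine (mul_le_mul_of_nonneg_left hle (by positivity)).trans ?_
    have h1 : (1 / 2 ^ i * c * d) * (5 * (L : ℝ)) ≤ (1 / 2 ^ i * c * d) * (5 * (2 * h / (d : ℝ) ^ 2)) :=
      mul_le_mul_of_nonneg_left (by linarith) (by positivity)
    refine h1.trans (le_of_eq ?_)
    field_simp
  refine (sum_le_sum hfib).trans ?_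
  rw [← mul_sum, ← mul_sum]
  have hsub : ∑ d ∈ Ico 2 D, 1 / (d : ℝ) ≤ 1 + i := by
    refine le_trans (sum_le_sum_of_subset_of_nonneg ?_ fun _ _ _ => by positivity) (Env.harm_le i)
    intro d hd
    rw [mem_Ico] at hd
    rw [mem_Icc]
    refine ⟨by omega, ?_⟩
    have h1 : (d : ℝ) < (2 : ℝ) ^ (10 * E.δ * i) := Nat.lt_ceil.1 hd.2
    have h2 : (2 : ℝ) ^ (10 * E.δ * i) ≤ (2 : ℝ) ^ (i : ℝ) := by
      apply Real.rpow_le_rpow_of_exponent_le (by norm_num)
      nlinarith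
    rw [Real.rpow_natCast] at h2
    have h3 : (d : ℝ) ≤ ((2 ^ i : ℕ) : ℝ) := by
      push_cast
      linarith
    exact_mod_cast h3
  have h4 := hh_le (δ_half E) i
  have h5 : (1 / 2 ^ i * c) * (5 * (h : ℝ)) ≤
      (1 / 2 ^ i * c) * (5 * (2 : ℝ) ^ ((1 / 2 - E.δ) * i)) := by
    apply mul_le_mul_of_nonneg_left _ (by positivity)
    rw [hh']
    linarith
  have h6 : (1 / 2 ^ i * c) * (5 * (2 : ℝ) ^ ((1 / 2 - E.δ) * i)) = 5 / (i : ℝ) ^ 10 * E.w i := by
    unfold Env.w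
    have e1 : (2 : ℝ) ^ (-(1 / 2 + E.δ / 2) * (i : ℝ)) * (2 : ℝ) ^ i =
      (2 : ℝ) ^ ((1 / 2 - E.δ) * i) * (2 : ℝ) ^ (E.δ / 2 * i) := exp_id1 E i
    rw [hc]
    have e2 : (1 / 2 ^ i * ((2 : ℝ) ^ (E.δ / 2 * i) / (i : ℝ) ^ 50)) *
        (5 * (2 : ℝ) ^ ((1 / 2 - E.δ) * i)) = 5 / (i : ℝ) ^ 50 *
        (((2 : ℝ) ^ ((1 / 2 - E.δ) * i) * (2 : ℝ) ^ (E.δ / 2 * i)) / 2 ^ i) := by ring
    rw [e2, ← e1]
    field_simp
  rw [h6] at h5
  have hw := w_nonneg E i
  have hS0 : 0 ≤ ∑ d ∈ Ico 2 D, 1 / (d : ℝ) := sum_nonneg fun _ _ => by positivity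
  calc (1 / 2 ^ i * c) * (5 * (h : ℝ)) * (2 * ∑ d ∈ Ico 2 D, 1 / (d : ℝ)) ≤
      (5 / (i : ℝ) ^ 10 * E.w i) * (2 * (1 + i)) :=
        mul_le_mul h5 (by linarith) (by positivity) (by positivity)
    _ = (10 * (1 + i) / (i : ℝ) ^ 10) * E.w i := by ring
    _ ≤ (1 / 128) * E.w i := by
        apply mul_le_mul_of_nonneg_right _ hw
        rw [div_le_div_iff₀ (by positivity) (by norm_num)]
        have h7 : (10 : ℝ) ^ 9 ≤ (i : ℝ) ^ 9 := pow_le_pow_left₀ (by norm_num) hi10 9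
        have h8 : (i : ℝ) ^ 10 = (i : ℝ) ^ 9 * i := by ring
        rw [h8]
        nlinarith
    _ = E.w i / 128 := by ring

end Pool.Agent.U317.CM
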