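import Pool.Agent.U317.CM.C6
import Pool.Agent.W326.MO.HA3

/-!
# Nonsquarefree numbers: the host primes
-/

set_option autoImplicit false

namespace Pool.Agent.U317.CM

open Finset
open scoped Classical
open Pool.Agent.W76.MO
open Pool.Agent.W326.MO (mem_host host_lp g_zero Sa_le)
open Pool.Agent.W683.MO (cell_sub w_nonneg)

variable (E : Env)

lemma Wc_host {j i' k' n₁ n : ℕ} (hgu : ∀ p, E.gu j p ≠ 0 → E.U j p)
    (hgh : ∀ p, E.gh j p ≠ 0 → E.H j p) (hn₁ : n₁ ∈ E.Host j i' k') (hn : n ≠ 0)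
    (hd : n₁ ∣ n) :
    ((n₁ : ℝ) / lp n₁) * (Wc E j (n / lp n₁) / ((n / lp n₁ : ℕ) : ℝ)) =
      Wc E j (n / n₁) / ((n / n₁ : ℕ) : ℝ) := by
  obtain ⟨a, rfl⟩ := hd
  obtain ⟨hq, hqd⟩ := host_lp hn₁
  have h1 := mem_host hn₁
  obtain ⟨m, hm⟩ := hqd
  set q := lp n₁ with hqdef
  have hq0 : 0 < q := hq.pos
  have hsq : Squarefree n₁ := h1.2.2.2.1
  have hn₁0 : n₁ ≠ 0 := hsq.ne_zero
  have ha0 : a ≠ 0 := by
    rintro rfl
    rw [mul_zero] at hn
    exact hn rfl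
  have hm0 : m ≠ 0 := by
    rintro rfl
    rw [mul_zero] at hm
    exact hn₁0 hm
  have hmq : n₁ / q = m := by
    rw [hm]; exact Nat.mul_div_cancel_left m hq0
  have e1 : n₁ * a / q = m * a := by
    rw [hm, mul_assoc]; exact Nat.mul_div_cancel_left _ hq0
  have e2 : n₁ * a / n₁ = a := Nat.mul_div_cancel_left _ (Nat.pos_of_ne_zero hn₁0)
  have e3 : Wc E j m = 1 := by
    unfold Wc
    rw [cm_congr _ (fun _ => 1) m, cm_const_one]
    intro p hp
    have h2 := h1.2.2.2.2.2.2 p (Nat.prime_of_mem_primeFactors hp)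
      (by rw [hmq]; exact Nat.dvd_of_mem_primeFactors hp)
    rw [g_zero (hgu p) (hgh p) h2.1 h2.2]
    ring
  rw [e1, e2, Wc_mul E j hm0 ha0, e3, one_mul]
  have hn₁R : (n₁ : ℝ) = q * m := by
    have : ((n₁ : ℕ) : ℝ) = ((q * m : ℕ) : ℝ) := by rw [← hm]
    push_cast at this
    exact this
  have hqR : (q : ℝ) ≠ 0 := by exact_mod_cast hq0.ne'
  have hmR : (m : ℝ) ≠ 0 := by exact_mod_cast hm0
  have haR : (a : ℝ) ≠ 0 := by exact_mod_cast ha0
  rw [hn₁R]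
  push_cast
  field_simp

/-- the term of the pair `(n₁, n)` -/
noncomputable def tm (j i' k' n n₁ : ℕ) : ℝ :=
  E.w i' / ((E.Host j i' k').card : ℝ) * (Wc E j (n / n₁) / ((n / n₁ : ℕ) : ℝ))

lemma tm_nonneg (j i' k' n n₁ : ℕ) (hg : ∀ p, 0 ≤ E.g j p) : 0 ≤ tm E j i' k' n n₁ := by
  have h1 := w_nonneg E i'
  have h2 := one_le_Wc E j (n / n₁) hg
  unfold tm
  positivity

lemma partH_q {j i k n q : ℕ} (hg : ∀ p, 0 ≤ E.g j p) (hgu : ∀ p, E.gu j p ≠ 0 → E.U j p)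
    (hgh : ∀ p, E.gh j p ≠ 0 → E.H j p) (hk : k < nc E.δ i) (hn : n ∈ cell E.δ i k)
    (hnE : ¬ Exc E j i n) (hq : q ∈ n.primeFactors) (hqi : (2 : ℝ) ^ (1 / 20 * (i : ℝ)) < q) :
    E.gh j q * (Wc E j (n / q) / ((n / q : ℕ) : ℝ)) ≤
      ∑ i' ∈ (range (2 * i + 3)).filter (fun i' : ℕ => j ≤ i' ∧ (1 - E.τ) * i ≤ (i' : ℝ)),
        ∑ k' ∈ E.Bad i', ∑ n₁ ∈ (E.Host j i' k').filter (fun n₁ => lp n₁ = q),
          (if n₁ ∣ n then tm E j i' k' n n₁ else 0) := by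
  have hτ := E.hτ
  obtain ⟨hc1, hc2⟩ := cell_sub E.hδ.le hk hn
  have hn0 : n ≠ 0 := by omega
  have hqd := Nat.dvd_of_mem_primeFactors hq
  have hqn : q ≤ n := Nat.le_of_dvd (Nat.pos_of_ne_zero hn0) hqd
  set X : ℝ := Wc E j (n / q) / ((n / q : ℕ) : ℝ) with hX
  set G : ℕ → ℝ := fun i' => ∑ k' ∈ E.Bad i', ∑ n₁ ∈ (E.Host j i' k').filter (fun n₁ => lp n₁ = q),
          (if n₁ ∣ n then tm E j i' k' n n₁ else 0) with hG
  have hG0 : ∀ i', 0 ≤ G i' := fun i' => sum_nonneg fun k' _ => sum_nonneg fun n₁ _ => by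
    split_ifs
    · exact tm_nonneg E j i' k' n n₁ hg
    · exact le_rfl
  -- the scales
  have hsc : ∀ i' : ℕ, j ≤ i' → ∀ k' ∈ E.Bad i', ∀ n₁ ∈ E.Host j i' k', lp n₁ = q →
      i' < 2 * i + 3 ∧ (1 - E.τ) * i ≤ (i' : ℝ) ∧ n₁ ∣ n := by
    intro i' hji' k' hk' n₁ hn₁ hlp
    have h3 := (mem_host hn₁).2.1
    rw [hlp] at h3
    have h6 : i' < 2 * i + 3 := by
      by_contra hcon
      push Not at hcon
      have h4 : (q : ℝ) ≤ (2 : ℝ) ^ ((i : ℝ) + 1) := by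
        have : (q : ℝ) ≤ ((2 ^ (i + 1) : ℕ) : ℝ) := by
          exact_mod_cast le_trans hqn hc2
        rw [show ((i : ℝ) + 1) = ((i + 1 : ℕ) : ℝ) by push_cast; ring, Real.rpow_natCast]
        push_cast at this
        exact this
      have h5 : (2 : ℝ) ^ ((i : ℝ) + 1) < (2 : ℝ) ^ ((1 / 2 + E.τ) * i') := by
        apply Real.rpow_lt_rpow_of_exponent_lt (by norm_num)
        have : (2 * (i : ℝ) + 3) ≤ i' := by exact_mod_cast hcon
        nlinarith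
      linarith
    have h7 : ¬ ((i' : ℝ) < (1 - E.τ) * i ∨ ¬ n₁ ∣ n) := by
      intro hor
      apply hnE
      exact ⟨i', mem_range.2 h6, hji', k', hk', n₁, hn₁, by rw [hlp]; exact hqd,
        by rw [hlp]; exact hqi, hor⟩
    push Not at h7
    exact ⟨h6, h7.1, h7.2⟩
  have e1 : E.gh j q * X = ∑ i' ∈ (range (2 * Nat.log 2 q + 3)).filter (fun i => j ≤ i), G i' := by
    unfold Env.gh
    rw [sum_mul]
    refine sum_congr rfl fun i' hi' => ?_
    rw [mem_filter] at hi'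
    rw [sum_mul]
    refine sum_congr rfl fun k' hk' => ?_
    rw [sum_mul]
    refine sum_congr rfl fun n₁ hn₁ => ?_
    rw [mem_filter] at hn₁
    obtain ⟨-, -, h3⟩ := hsc i' hi'.2 k' hk' n₁ hn₁.1 hn₁.2
    rw [if_pos h3]
    unfold tm
    rw [← Wc_host E hgu hgh hn₁.1 hn0 h3, hn₁.2, hX]
    ring
  rw [e1, ← Finset.sum_filter_ne_zero]
  apply Finset.sum_le_sum_of_subset_of_nonneg
  · intro i' hi'
    rw [mem_filter, mem_filter] at hi'
    obtain ⟨⟨-, hji'⟩, hne⟩ := hi'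
    obtain ⟨k', hk', hne⟩ := exists_ne_zero_of_sum_ne_zero hne
    obtain ⟨n₁, hn₁, -⟩ := exists_ne_zero_of_sum_ne_zero hne
    rw [mem_filter] at hn₁
    obtain ⟨h1, h2, -⟩ := hsc i' hji' k' hk' n₁ hn₁.1 hn₁.2
    exact mem_filter.2 ⟨mem_range.2 h1, hji', h2⟩
  · intro i' _ _
    exact hG0 i'

theorem partH (hHC : E.HCount) (hGB : E.GBounds) (hES : E.ESum) : ∃ R₀ : ℕ, ∀ R : ℕ, R₀ ≤ R →
    ∃ J : ℕ, ∀ j : ℕ, J ≤ j → ∀ i : ℕ, j ≤ i → ∀ k : ℕ, k < nc E.δ i →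
      ∑ n ∈ (NSc E R i k).filter (fun n => ¬ Exc E j i n),
        ∑ q ∈ n.primeFactors.filter (fun q : ℕ => (2 : ℝ) ^ (1 / 20 * (i : ℝ)) < q),
          E.gh j q * (Wc E j (n / q) / ((n / q : ℕ) : ℝ)) ≤ E.w i / 128 := by
  obtain ⟨JH, hJH⟩ := hHC
  have hcH := E.hcH
  have hCB := E.hCB
  set K : ℝ := 2 ^ 45 * E.CB / E.cH with hK
  have hK0 : 0 < K := by rw [hK]; positivity
  obtain ⟨R₀, hR₀⟩ := EScm E hGB hES (1 / (128 * K)) (by positivity)
  obtain ⟨JG, hJG1, hJG⟩ := hGB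
  refine ⟨R₀, fun R hR => ?_⟩
  obtain ⟨JE, hJE⟩ := hR₀ R hR
  refine ⟨JH + JG + JE + E.i₁ + 10, fun j hj i hji k hk => ?_⟩
  obtain ⟨-, hgu0, hgh0, hgu, hgh, -⟩ := hJG j (by omega)
  have hgh' : ∀ p, E.gh j p ≠ 0 → E.H j p := fun p hp => (hgh p hp).1
  have hg : ∀ p, 0 ≤ E.g j p := fun p => add_nonneg (hgu0 p) (hgh0 p)
  have hES' := hJE j (by omega) (2 ^ (i + 1))
  set F := (range (2 * i + 3)).filter (fun i' : ℕ => j ≤ i' ∧ (1 - E.τ) * i ≤ (i' : ℝ)) with hF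
  set A := (Icc 2 (2 ^ (i + 1))).filter (fun t => Rough R t) with hA
  set GN := (NSc E R i k).filter (fun n => ¬ Exc E j i n) with hGN
  have hmem : ∀ n ∈ GN, n ∈ cell E.δ i k ∧ ¬ Squarefree n ∧ Rough R n ∧ ¬ Exc E j i n ∧ n ≠ 0 ∧
      n ≤ 2 ^ (i + 1) := by
    intro n hn
    rw [hGN, mem_filter] at hn
    obtain ⟨hn, h1⟩ := hn
    unfold NSc at hn
    rw [mem_filter] at hn
    obtain ⟨h2, h3, h4⟩ := hn
    obtain ⟨h5, h6⟩ := cell_sub E.hδ.le hk h2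
    exact ⟨h2, h3, h4, h1, by omega, h6⟩
  have hwi := w_nonneg E i
  -- first step
  have hstep1 : ∀ n ∈ GN, ∑ q ∈ n.primeFactors.filter
        (fun q : ℕ => (2 : ℝ) ^ (1 / 20 * (i : ℝ)) < q),
          E.gh j q * (Wc E j (n / q) / ((n / q : ℕ) : ℝ)) ≤
      ∑ i' ∈ F, ∑ k' ∈ E.Bad i', ∑ n₁ ∈ E.Host j i' k',
        (if n₁ ∣ n then tm E j i' k' n n₁ else 0) := by
    intro n hn
    obtain ⟨h1, h2, h3, h4, h5, h6⟩ := hmem n hn
    have h7 : ∀ q ∈ n.primeFactors.filter (fun q : ℕ => (2 : ℝ) ^ (1 / 20 * (i : ℝ)) < q),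
        E.gh j q * (Wc E j (n / q) / ((n / q : ℕ) : ℝ)) ≤ ∑ i' ∈ F, ∑ k' ∈ E.Bad i',
          ∑ n₁ ∈ (E.Host j i' k').filter (fun n₁ => lp n₁ = q),
            (if n₁ ∣ n then tm E j i' k' n n₁ else 0) := by
      intro q hq
      rw [mem_filter] at hq
      exact partH_q E hg hgu hgh' hk h1 h4 hq.1 hq.2
    refine (sum_le_sum h7).trans ?_
    rw [sum_comm]
    refine sum_le_sum fun i' _ => ?_
    rw [sum_comm]
    refine sum_le_sum fun k' _ => ?_
    apply Finset.sum_fiberwise_le_sum_of_sum_fiber_nonneg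
    intro q _
    apply sum_nonneg
    intro n₁ _
    split_ifs
    · exact tm_nonneg E j i' k' n n₁ hg
    · exact le_rfl
  refine (sum_le_sum hstep1).trans ?_
  rw [sum_comm]
  -- second step: fixed host
  have hstep2 : ∀ i' ∈ F, ∑ n ∈ GN, ∑ k' ∈ E.Bad i', ∑ n₁ ∈ E.Host j i' k',
        (if n₁ ∣ n then tm E j i' k' n n₁ else 0) ≤
      ∑ k' ∈ E.Bad i', ∑ a ∈ A, Wc E j a / a * (E.w i' / ((E.Host j i' k').card : ℝ) *
        (((E.Host j i' k').filter (fun n₁ => a * n₁ ∈ cell E.δ i k)).card : ℝ)) := by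
    intro i' _
    rw [sum_comm]
    refine sum_le_sum fun k' _ => ?_
    rw [sum_comm]
    have hn₁ : ∀ n₁ ∈ E.Host j i' k', ∑ n ∈ GN, (if n₁ ∣ n then tm E j i' k' n n₁ else 0) ≤
        ∑ a ∈ A, (if a * n₁ ∈ cell E.δ i k then
          E.w i' / ((E.Host j i' k').card : ℝ) * (Wc E j a / a) else 0) := by
      intro n₁ hn₁
      have hn₁0 : n₁ ≠ 0 := (mem_host hn₁).2.2.2.1.ne_zero
      rw [← sum_filter, ← sum_filter]
      have hinj : Set.InjOn (fun n => n / n₁) ((GN.filter (fun n => n₁ ∣ n) : Finset ℕ) : Set ℕ) := by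
        intro n hn n' hn' he
        simp only [coe_filter, Set.mem_setOf_eq] at hn hn'
        simp only at he
        rw [← Nat.div_mul_cancel hn.2, ← Nat.div_mul_cancel hn'.2, he]
      have e1 : ∑ n ∈ GN.filter (fun n => n₁ ∣ n), tm E j i' k' n n₁ =
          ∑ a ∈ (GN.filter (fun n => n₁ ∣ n)).image (fun n => n / n₁),
            E.w i' / ((E.Host j i' k').card : ℝ) * (Wc E j a / a) := by
        rw [sum_image hinj]
        rfl
      rw [e1]
      apply sum_le_sum_of_subset_of_nonneg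
      · intro a ha
        rw [mem_image] at ha
        obtain ⟨n, hn, rfl⟩ := ha
        rw [mem_filter] at hn
        obtain ⟨hn, hd⟩ := hn
        obtain ⟨h1, h2, h3, h4, h5, h6⟩ := hmem n hn
        have hmul : n / n₁ * n₁ = n := Nat.div_mul_cancel hd
        have hdvd : n / n₁ ∣ n := Dvd.intro _ hmul
        have hne1 : n / n₁ ≠ 1 := by
          intro h0
          rw [h0, one_mul] at hmul
          rw [← hmul] at h2
          exact h2 (mem_host hn₁).2.2.2.1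
        have hne0 : n / n₁ ≠ 0 := by
          intro h0
          rw [h0, zero_mul] at hmul
          exact h5 hmul.symm
        rw [mem_filter, hA, mem_filter, mem_Icc, hmul]
        exact ⟨⟨⟨(Nat.two_le_iff _).2 ⟨hne0, hne1⟩,
          (Nat.le_of_dvd (Nat.pos_of_ne_zero h5) hdvd).trans h6⟩, rough_dvd hdvd h3⟩, h1⟩
      · intro a _ _
        have h1 := w_nonneg E i'
        have h2 := one_le_Wc E j a hg
        positivity
    refine (sum_le_sum hn₁).trans (le_of_eq ?_)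
    rw [sum_comm]
    refine sum_congr rfl fun a _ => ?_
    rw [← sum_filter, sum_const, nsmul_eq_mul]
    ring
  refine (sum_le_sum hstep2).trans ?_
  have h2 : ∑ i' ∈ F, ∑ k' ∈ E.Bad i', ∑ a ∈ A, Wc E j a / a *
      (E.w i' / ((E.Host j i' k').card : ℝ) *
      (((E.Host j i' k').filter (fun n₁ => a * n₁ ∈ cell E.δ i k)).card : ℝ)) =
      ∑ a ∈ A, Wc E j a / a * ∑ i' ∈ F, ∑ k' ∈ E.Bad i',
      (E.w i' / ((E.Host j i' k').card : ℝ) *
      (((E.Host j i' k').filter (fun n₁ => a * n₁ ∈ cell E.δ i k)).card : ℝ)) := by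
    have h3 : ∀ i' ∈ F, ∑ k' ∈ E.Bad i', ∑ a ∈ A, Wc E j a / a *
      (E.w i' / ((E.Host j i' k').card : ℝ) *
      (((E.Host j i' k').filter (fun n₁ => a * n₁ ∈ cell E.δ i k)).card : ℝ)) =
      ∑ a ∈ A, ∑ k' ∈ E.Bad i', Wc E j a / a *
      (E.w i' / ((E.Host j i' k').card : ℝ) *
      (((E.Host j i' k').filter (fun n₁ => a * n₁ ∈ cell E.δ i k)).card : ℝ)) :=
      fun i' _ => Finset.sum_comm
    rw [Finset.sum_congr rfl h3, Finset.sum_comm]
    apply Finset.sum_congr rfl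
    intro a _
    rw [Finset.mul_sum]
    apply Finset.sum_congr rfl
    intro i' _
    rw [Finset.mul_sum]
  rw [h2]
  calc ∑ a ∈ A, Wc E j a / a * ∑ i' ∈ F, ∑ k' ∈ E.Bad i',
      (E.w i' / ((E.Host j i' k').card : ℝ) *
      (((E.Host j i' k').filter (fun n₁ => a * n₁ ∈ cell E.δ i k)).card : ℝ))
      ≤ ∑ a ∈ A, Wc E j a / a * (K * E.w i * (a : ℝ) ^ (-E.δ / 2)) := by
        apply Finset.sum_le_sum
        intro a ha
        rw [hA, Finset.mem_filter, Finset.mem_Icc] at ha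
        apply mul_le_mul_of_nonneg_left
        · exact Sa_le E hJH (by omega) (by omega) (by omega) hji hk (by omega)
        · have h2 := one_le_Wc E j a hg
          positivity
    _ = K * E.w i * ∑ a ∈ A, Wc E j a / a * (a : ℝ) ^ (-E.δ / 2) := by
        rw [Finset.mul_sum]
        apply Finset.sum_congr rfl
        intro a _
        ring
    _ ≤ K * E.w i * (1 / (128 * K)) := by
        apply mul_le_mul_of_nonneg_left hES' (by positivity)
    _ = E.w i / 128 := by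
        field_simp

end Pool.Agent.U317.CM
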