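import Pool.Agent.U317.CM.C7

/-!
# The contribution of the nonsquarefree numbers
-/

set_option autoImplicit false

namespace Pool.Agent.U317.CM

open Finset
open scoped Classical
open Pool.Agent.W76.MO
open Pool.Agent.W326.MO (mem_host host_lp g_zero Sa_le)
open Pool.Agent.W683.MO (cell_sub w_nonneg gu_nonneg gh_nonneg gh_ne)

variable (E : Env)

/-- a prime factor with a large perturbation is large -/
lemma large_prime {j i k n p : ℕ} (hk : k < nc E.δ i) (hn : n ∈ cell E.δ i k)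
    (hnE : ¬ Exc E j i n) (hp : p ∈ n.primeFactors) (hgl : E.gl j i p ≠ 0) :
    (2 : ℝ) ^ ((1 / 2 + E.τ / 4) * i) ≤ p := by
  have hτ := E.hτ
  have hτ' := E.hτ'
  have hi0 : (0 : ℝ) ≤ i := Nat.cast_nonneg i
  obtain ⟨hc1, hc2⟩ := cell_sub E.hδ.le hk hn
  have hn0 : n ≠ 0 := by omega
  have hpd := Nat.dvd_of_mem_primeFactors hp
  have hpn : p ≤ n := Nat.le_of_dvd (Nat.pos_of_ne_zero hn0) hpd
  by_cases h1 : (2 : ℝ) ^ (3 / 5 * (i : ℝ)) < p
  · refine le_trans ?_ h1.le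
    apply Real.rpow_le_rpow_of_exponent_le (by norm_num)
    nlinarith
  · unfold Env.gl at hgl
    rw [if_neg h1, zero_add] at hgl
    have h2 : (2 : ℝ) ^ (1 / 20 * (i : ℝ)) < p := by
      by_contra hcon
      rw [if_neg hcon] at hgl
      exact hgl rfl
    rw [if_pos h2] at hgl
    obtain ⟨i', hji', -, k', hk', n₁, hn₁, hlp, -⟩ := gh_ne E hgl
    have h3 := (mem_host hn₁).2.1
    rw [hlp] at h3
    have h6 : i' < 2 * i + 3 := by
      by_contra hcon
      push Not at hcon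
      have h4 : (p : ℝ) ≤ (2 : ℝ) ^ ((i : ℝ) + 1) := by
        have : (p : ℝ) ≤ ((2 ^ (i + 1) : ℕ) : ℝ) := by
          exact_mod_cast le_trans hpn hc2
        rw [show ((i : ℝ) + 1) = ((i + 1 : ℕ) : ℝ) by push_cast; ring, Real.rpow_natCast]
        push_cast at this
        exact this
      have h5 : (2 : ℝ) ^ ((i : ℝ) + 1) < (2 : ℝ) ^ ((1 / 2 + E.τ) * i') := by
        apply Real.rpow_lt_rpow_of_exponent_lt (by norm_num)
        have : (2 * (i : ℝ) + 3) ≤ i' := by exact_mod_cast hcon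
        nlinarith
      linarith
    have h7 : ¬ ((i' : ℝ) < (1 - E.τ) * i ∨ ¬ n₁ ∣ n) := by
      intro hor
      apply hnE
      exact ⟨i', mem_range.2 h6, hji', k', hk', n₁, hn₁, by rw [hlp]; exact hpd,
        by rw [hlp]; exact h2, hor⟩
    push Not at h7
    refine le_trans ?_ h3
    apply Real.rpow_le_rpow_of_exponent_le (by norm_num)
    have h8 := h7.1
    have h9 : (1 / 2 + E.τ) * ((1 - E.τ) * i) ≤ (1 / 2 + E.τ) * i' :=
      mul_le_mul_of_nonneg_left h8 (by linarith)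
    refine le_trans ?_ h9
    have h10 : (1 / 2 + E.τ / 4) ≤ (1 / 2 + E.τ) * (1 - E.τ) := by nlinarith
    calc (1 / 2 + E.τ / 4) * (i : ℝ) ≤ ((1 / 2 + E.τ) * (1 - E.τ)) * i :=
          mul_le_mul_of_nonneg_right h10 hi0
      _ = _ := by ring

/-- the pointwise bound -/
lemma pointN {j i k n : ℕ} (hi : 2 < E.τ * i) (hk : k < nc E.δ i) (hn : n ∈ cell E.δ i k)
    (hnE : ¬ Exc E j i n) :
    Wc E j n / n ≤ Ws E j i n / n +
      2 * ∑ p ∈ n.primeFactors.filter (fun p : ℕ => (2 : ℝ) ^ (3 / 5 * (i : ℝ)) < p),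
        E.gu j p * (Wc E j (n / p) / ((n / p : ℕ) : ℝ)) +
      2 * ∑ q ∈ n.primeFactors.filter (fun q : ℕ => (2 : ℝ) ^ (1 / 20 * (i : ℝ)) < q),
        E.gh j q * (Wc E j (n / q) / ((n / q : ℕ) : ℝ)) := by
  have hτ := E.hτ
  have hg : ∀ p, 0 ≤ E.g j p := fun p => add_nonneg (gu_nonneg E j p) (gh_nonneg E j p)
  have hX : ∀ t : ℕ, 0 ≤ Wc E j t / (t : ℝ) := fun t =>
    div_nonneg (zero_le_one.trans (one_le_Wc E j t hg)) (Nat.cast_nonneg t)
  obtain ⟨hc1, hc2⟩ := cell_sub E.hδ.le hk hn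
  have hn0 : n ≠ 0 := by omega
  have hS1 : ∀ p ∈ n.primeFactors.filter (fun p : ℕ => (2 : ℝ) ^ (3 / 5 * (i : ℝ)) < p),
      0 ≤ E.gu j p * (Wc E j (n / p) / ((n / p : ℕ) : ℝ)) := fun p _ =>
    mul_nonneg (gu_nonneg E j p) (hX _)
  have hS2 : ∀ q ∈ n.primeFactors.filter (fun q : ℕ => (2 : ℝ) ^ (1 / 20 * (i : ℝ)) < q),
      0 ≤ E.gh j q * (Wc E j (n / q) / ((n / q : ℕ) : ℝ)) := fun q _ =>
    mul_nonneg (gh_nonneg E j q) (hX _)
  have hcong : ∀ m : ℕ, (∀ p ∈ m.primeFactors, E.gl j i p = 0) → Wc E j m = Ws E j i m := by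
    intro m hm
    unfold Wc Ws
    refine cm_congr _ _ m fun p hp => ?_
    rw [← E.gl_add_gs j i p, hm p hp, zero_add]
  by_cases hA : ∀ p ∈ n.primeFactors, E.gl j i p = 0
  · rw [hcong n hA]
    have h1 := sum_nonneg hS1
    have h2 := sum_nonneg hS2
    linarith
  · push Not at hA
    obtain ⟨P, hP, hPl⟩ := hA
    have hPL := large_prime E hk hn hnE hP hPl
    have hPp := Nat.prime_of_mem_primeFactors hP
    obtain ⟨m, hm⟩ := Nat.dvd_of_mem_primeFactors hP
    have hm0 : m ≠ 0 := by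
      rintro rfl
      rw [mul_zero] at hm
      exact hn0 hm
    -- the other prime factors
    have hbig : ∀ p : ℕ, (2 : ℝ) ^ ((1 / 2 + E.τ / 4) * i) ≤ p → n < p * P := by
      intro p hp
      have h1 : (2 : ℝ) ^ ((i : ℝ) + 1) < (p : ℝ) * P := by
        calc (2 : ℝ) ^ ((i : ℝ) + 1) < (2 : ℝ) ^ ((1 / 2 + E.τ / 4) * i + (1 / 2 + E.τ / 4) * i) := by
              apply Real.rpow_lt_rpow_of_exponent_lt (by norm_num)
              nlinarith
          _ = (2 : ℝ) ^ ((1 / 2 + E.τ / 4) * i) * (2 : ℝ) ^ ((1 / 2 + E.τ / 4) * i) :=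
              Real.rpow_add (by norm_num) _ _
          _ ≤ (p : ℝ) * P := mul_le_mul hp hPL (by positivity) (by positivity)
      have h2 : (n : ℝ) ≤ (2 : ℝ) ^ ((i : ℝ) + 1) := by
        have : (n : ℝ) ≤ ((2 ^ (i + 1) : ℕ) : ℝ) := by exact_mod_cast hc2
        rw [show ((i : ℝ) + 1) = ((i + 1 : ℕ) : ℝ) by push_cast; ring, Real.rpow_natCast]
        push_cast at this
        exact this
      have h3 : (n : ℝ) < ((p * P : ℕ) : ℝ) := by
        push_cast
        linarith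
      exact_mod_cast h3
    have hml : ∀ p ∈ m.primeFactors, E.gl j i p = 0 := by
      intro p hp
      by_contra hpl
      have hpd := Nat.dvd_of_mem_primeFactors hp
      have hpp := Nat.prime_of_mem_primeFactors hp
      have hpn : p ∈ n.primeFactors := by
        rw [Nat.mem_primeFactors]
        exact ⟨hpp, by rw [hm]; exact hpd.mul_left P, hn0⟩
      have h1 := hbig p (large_prime E hk hn hnE hpn hpl)
      have h2 : p * P ≤ n := by
        rw [hm, mul_comm P m]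
        exact Nat.mul_le_mul_right _ (Nat.le_of_dvd (Nat.pos_of_ne_zero hm0) hpd)
      omega
    have hWm := hcong m hml
    have hdiv : n / P = m := by
      rw [hm]
      exact Nat.mul_div_cancel_left m hPp.pos
    have hPR : (P : ℝ) ≠ 0 := by exact_mod_cast hPp.ne_zero
    have hmR : (m : ℝ) ≠ 0 := by exact_mod_cast hm0
    have hnR : (n : ℝ) = P * m := by
      rw [hm]
      push_cast
      ring
    have e1 : Wc E j n / n = Ws E j i n / n + 2 * (E.gl j i P * (Wc E j (n / P) / ((n / P : ℕ) : ℝ))) := by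
      have h1 : Wc E j n = (1 + 2 * (P * E.g j P)) * Wc E j m := by
        rw [hm]
        unfold Wc
        rw [cm_mul _ hPp.ne_zero hm0, cm_prime _ hPp]
      have h2 : Ws E j i n = (1 + 2 * (P * E.gs j i P)) * Ws E j i m := by
        rw [hm]
        unfold Ws
        rw [cm_mul _ hPp.ne_zero hm0, cm_prime _ hPp]
      rw [h1, h2, hdiv, hWm, hnR, ← E.gl_add_gs j i P]
      field_simp
      ring
    rw [e1]
    have e2 : E.gl j i P * (Wc E j (n / P) / ((n / P : ℕ) : ℝ)) ≤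
        ∑ p ∈ n.primeFactors.filter (fun p : ℕ => (2 : ℝ) ^ (3 / 5 * (i : ℝ)) < p),
          E.gu j p * (Wc E j (n / p) / ((n / p : ℕ) : ℝ)) +
        ∑ q ∈ n.primeFactors.filter (fun q : ℕ => (2 : ℝ) ^ (1 / 20 * (i : ℝ)) < q),
          E.gh j q * (Wc E j (n / q) / ((n / q : ℕ) : ℝ)) := by
      unfold Env.gl
      rw [add_mul]
      apply add_le_add
      · split_ifs with h
        · exact single_le_sum (f := fun p : ℕ => E.gu j p * (Wc E j (n / p) / ((n / p : ℕ) : ℝ)))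
            hS1 (mem_filter.2 ⟨hP, h⟩)
        · rw [zero_mul]
          exact sum_nonneg hS1
      · split_ifs with h
        · exact single_le_sum (f := fun p : ℕ => E.gh j p * (Wc E j (n / p) / ((n / p : ℕ) : ℝ)))
            hS2 (mem_filter.2 ⟨hP, h⟩)
        · rw [zero_mul]
          exact sum_nonneg hS2
    linarith

/-- the total contribution of the nonsquarefree numbers -/
theorem NSB (hHC : E.HCount) (hGB : E.GBounds) (hES : E.ESum) (hPB : Env.PairB E.τ E.δ) :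
    ∃ R₀ : ℕ, ∀ R : ℕ, R₀ ≤ R → ∃ J : ℕ, ∀ j : ℕ, J ≤ j → ∀ i : ℕ, j ≤ i → ∀ k : ℕ,
      k < nc E.δ i → ∑ n ∈ NSc E R i k, Wc E j n / n ≤ E.w i / 16 := by
  obtain ⟨R1, hU⟩ := partU E hGB hES
  obtain ⟨R2, hH⟩ := partH E hHC hGB hES
  obtain ⟨J1, hSq⟩ := mass_SqN E hGB
  obtain ⟨J2, hBad⟩ := mass_BadN E hGB hPB
  obtain ⟨J3, hSm⟩ := mass_SmN E hGB
  refine ⟨max R1 R2, fun R hR => ?_⟩
  obtain ⟨J4, hU⟩ := hU R ((le_max_left _ _).trans hR)
  obtain ⟨J5, hH⟩ := hH R ((le_max_right _ _).trans hR)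
  have hτ := E.hτ
  obtain ⟨J6, hJ6⟩ := exists_nat_gt (2 / E.τ)
  refine ⟨J1 + J2 + J3 + J4 + J5 + J6, fun j hj i hji k hk => ?_⟩
  have hi : 2 < E.τ * i := by
    rw [div_lt_iff₀ hτ] at hJ6
    have h1 : (J6 : ℝ) ≤ i := by exact_mod_cast (by omega : J6 ≤ i)
    nlinarith
  have hg : ∀ p, 0 ≤ E.g j p := fun p => add_nonneg (gu_nonneg E j p) (gh_nonneg E j p)
  have hW0 : ∀ n : ℕ, 0 ≤ Wc E j n / (n : ℝ) := fun t =>
    div_nonneg (zero_le_one.trans (one_le_Wc E j t hg)) (Nat.cast_nonneg t)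
  have hWs0 : ∀ n : ℕ, 0 ≤ Ws E j i n / (n : ℝ) := fun t =>
    div_nonneg (zero_le_one.trans (Ws_pos E j i t)) (Nat.cast_nonneg t)
  have hcell : ∀ n ∈ NSc E R i k, n ∈ cell E.δ i k ∧ ¬ Squarefree n := fun n hn => by
    unfold NSc at hn
    rw [mem_filter] at hn
    exact ⟨hn.1, hn.2.1⟩
  rw [← sum_filter_add_sum_filter_not (NSc E R i k) (fun n => Exc E j i n)]
  have h1 : ∑ n ∈ (NSc E R i k).filter (fun n => Exc E j i n), Wc E j n / n ≤ E.w i / 128 := by
    refine le_trans (sum_le_sum_of_subset_of_nonneg ?_ fun n _ _ => hW0 n)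
      (hBad j (by omega) i k hji hk)
    intro n hn
    rw [mem_filter] at hn
    unfold BadN
    exact mem_filter.2 ⟨(hcell n hn.1).1, hn.2⟩
  have h2 : ∑ n ∈ (NSc E R i k).filter (fun n => ¬ Exc E j i n), Ws E j i n / n ≤
      E.w i / 128 + E.w i / 128 := by
    refine le_trans ?_ (add_le_add (hSq j (by omega) i k hji hk) (hSm j (by omega) i k hji hk))
    rw [← sum_filter_add_sum_filter_not ((NSc E R i k).filter (fun n => ¬ Exc E j i n))
      (fun n => ∃ d, ⌈(2 : ℝ) ^ (10 * E.δ * i)⌉₊ ≤ d ∧ d ^ 2 ∣ n)]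
    apply add_le_add
    · refine le_trans (sum_le_sum fun n _ => ?_)
        (sum_le_sum_of_subset_of_nonneg ?_ fun n _ _ => hW0 n)
      · exact div_le_div_of_nonneg_right (Ws_le_Wc E j i n) (Nat.cast_nonneg n)
      · intro n hn
        rw [mem_filter, mem_filter] at hn
        unfold SqN
        exact mem_filter.2 ⟨(hcell n hn.1.1).1, hn.2⟩
    · refine sum_le_sum_of_subset_of_nonneg ?_ fun n _ _ => hWs0 n
      intro n hn
      rw [mem_filter, mem_filter] at hn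
      unfold SmN
      exact mem_filter.2 ⟨(hcell n hn.1.1).1, (hcell n hn.1.1).2, hn.2⟩
  have h3 : ∑ n ∈ (NSc E R i k).filter (fun n => ¬ Exc E j i n),
      ∑ p ∈ n.primeFactors.filter (fun p : ℕ => (2 : ℝ) ^ (3 / 5 * (i : ℝ)) < p),
        E.gu j p * (Wc E j (n / p) / ((n / p : ℕ) : ℝ)) ≤ E.w i / 128 := by
    refine le_trans (sum_le_sum_of_subset_of_nonneg (filter_subset _ _) fun n _ _ =>
      sum_nonneg fun p _ => mul_nonneg (gu_nonneg E j p) (hW0 _)) (hU j (by omega) i hji k hk)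
  have h4 := hH j (by omega) i hji k hk
  have h5 : ∑ n ∈ (NSc E R i k).filter (fun n => ¬ Exc E j i n), Wc E j n / n ≤
      ∑ n ∈ (NSc E R i k).filter (fun n => ¬ Exc E j i n), (Ws E j i n / n +
      2 * ∑ p ∈ n.primeFactors.filter (fun p : ℕ => (2 : ℝ) ^ (3 / 5 * (i : ℝ)) < p),
        E.gu j p * (Wc E j (n / p) / ((n / p : ℕ) : ℝ)) +
      2 * ∑ q ∈ n.primeFactors.filter (fun q : ℕ => (2 : ℝ) ^ (1 / 20 * (i : ℝ)) < q),
        E.gh j q * (Wc E j (n / q) / ((n / q : ℕ) : ℝ))) :=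
    sum_le_sum fun n hn => by
      rw [mem_filter] at hn
      exact pointN E hi hk (hcell n hn.1).1 hn.2
  rw [sum_add_distrib, sum_add_distrib, ← mul_sum, ← mul_sum] at h5
  have hw := w_nonneg E i
  linarith

end Pool.Agent.U317.CM
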