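import Pool.Agent.U317.CM.C8
import Pool.Agent.W76.MO.Asm6

/-!
# The completely multiplicative system
-/

set_option autoImplicit false

namespace Pool.Agent.U317.CM

open Finset
open scoped Classical
open Pool.Agent.W76.MO
open Pool.Agent.W76.MO.Env (tau mass big point w_pos fz fz_bound gz gz_le gz_sub gz_host gz_good
  gz_first host_lip prime_lip A0 harm_le)

variable (E : Env)

/-- the completely multiplicative function -/
noncomputable def fc (j : ℕ) (z : ℕ × ℕ → ℝ) (n : ℕ) : ℝ := cm (fun p => E.gz j z p - 1 / (p : ℝ)) n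

lemma fc_sqf (j : ℕ) (z : ℕ × ℕ → ℝ) {n : ℕ} (hn : Squarefree n) : fc E j z n = E.fz j z n :=
  cm_squarefree _ hn

/-- the `R`-rough elements of a cell -/
noncomputable def csc (R i k : ℕ) : Finset ℕ := (cell E.δ i k).filter (fun n => Rough R n)

lemma sum_csc (R i k : ℕ) (F : ℕ → ℝ) :
    ∑ n ∈ csc E R i k, F n = ∑ n ∈ E.cs R i k, F n + ∑ n ∈ NSc E R i k, F n := by
  have h1 : E.cs R i k = (csc E R i k).filter Squarefree := by
    unfold csc Env.cs
    rw [filter_filter]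
    apply filter_congr
    intro n _
    tauto
  have h2 : NSc E R i k = (csc E R i k).filter (fun n => ¬ Squarefree n) := by
    unfold csc NSc
    rw [filter_filter]
    apply filter_congr
    intro n _
    tauto
  rw [h1, h2, sum_filter_add_sum_filter_not]

/-- bounds for the values at an arbitrary number -/
lemma fc_bound (j n : ℕ) (z z' : ℕ × ℕ → ℝ) (ε : ℝ) (hu : ∀ p, 0 ≤ E.gu j p)
    (hh : ∀ p, 0 ≤ E.gh j p) (hz : ∀ i, |z i| ≤ 1) (hz' : ∀ i, |z' i| ≤ 1)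
    (hzz : ∀ i, |z i - z' i| ≤ ε) (hn : n ≠ 0) :
    |fc E j z n| ≤ Wc E j n / n ∧ |fc E j z n - fc E j z' n| ≤ ε * (Wc E j n / n) := by
  have hε : 0 ≤ ε := (abs_nonneg _).trans (hzz (0, 0))
  have hg : ∀ p, 0 ≤ E.g j p := fun p => add_nonneg (hu p) (hh p)
  have hb : ∀ y : ℕ × ℕ → ℝ, (∀ i, |y i| ≤ 1) → ∀ p : ℕ, |E.gz j y p - 1 / (p : ℝ)| ≤
      1 / (p : ℝ) + E.g j p := by
    intro y hy p
    have h1 := E.gz_le j y 1 hy hu p
    have h2 : (0 : ℝ) ≤ 1 / (p : ℝ) := by positivity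
    calc |E.gz j y p - 1 / (p : ℝ)| ≤ |E.gz j y p| + |1 / (p : ℝ)| := abs_sub _ _
      _ ≤ _ := by rw [abs_of_nonneg h2]; linarith
  obtain ⟨h1, h2⟩ := cm_lip (fun p => E.gz j z p - 1 / (p : ℝ)) (fun p => E.gz j z' p - 1 / (p : ℝ))
    (fun p => 1 / (p : ℝ)) (E.g j) ε hε (fun p => by positivity) hg (hb z hz) (hb z' hz')
    (fun p => by
      have h3 := E.gz_le j (fun i => z i - z' i) ε hzz hu p
      rw [← gz_sub] at h3
      have e : E.gz j z p - 1 / (p : ℝ) - (E.gz j z' p - 1 / (p : ℝ)) = E.gz j z p - E.gz j z' p := by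
        ring
      rw [e]
      exact h3) n hn
  rw [Wc_div_eq E j hn]
  refine ⟨h1.trans (cm_le _ _ n (fun p _ => ?_) fun p _ => ?_), h2⟩
  · have := hg p
    positivity
  · have := hg p
    show 1 / (p : ℝ) + E.g j p ≤ 1 / (p : ℝ) + 2 * E.g j p
    linarith

/-- the inequalities for the cells -/
structure KeyC (R j : ℕ) : Prop where
  u0 : ∀ p, 0 ≤ E.gu j p
  h0 : ∀ p, 0 ≤ E.gh j p
  tau_cell : ∀ i k : ℕ, j ≤ i → k < nc E.δ i →
    ∑ n ∈ E.cs R i k, E.tau j n ≤ E.w i + 3 * E.w i / 16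
  mass_cell : ∀ i k : ℕ, j ≤ i → k < nc E.δ i → ∑ n ∈ E.cs R i k, E.mass j n ≤ 3 * E.w i
  inv_cell : ∀ i k : ℕ, j ≤ i → k < nc E.δ i → ∑ n ∈ E.cs R i k, 1 / (n : ℝ) ≤ E.w i / 16
  ns_cell : ∀ i k : ℕ, j ≤ i → k < nc E.δ i → ∑ n ∈ NSc E R i k, Wc E j n / n ≤ E.w i / 16

theorem keyC (hHC : E.HCount) (hGB' : E.GBounds) (hES : E.ESum) (hPB : Env.PairB E.τ E.δ)
    (hU : E.UPart) (hH : E.HPart) (hS : E.SPart) :
    ∃ R₀ : ℕ, ∀ R : ℕ, R₀ ≤ R → ∃ J : ℕ, ∀ j : ℕ, J ≤ j → KeyC E R j := by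
  obtain ⟨R3, hNS⟩ := NSB E hHC hGB' hES hPB
  obtain ⟨J0, hJ0, hGB⟩ := hGB'
  obtain ⟨R1, hU⟩ := hU
  obtain ⟨R2, hH⟩ := hH
  obtain ⟨J3, hS⟩ := hS
  refine ⟨R1 + R2 + R3, fun R hR => ?_⟩
  obtain ⟨J1, hU⟩ := hU R (by omega)
  obtain ⟨J2, hH⟩ := hH R (by omega)
  obtain ⟨J4, hNS⟩ := hNS R (by omega)
  refine ⟨J0 + J1 + J2 + J3 + J4, fun j hj => ?_⟩
  obtain ⟨_, hu0, hh0, _⟩ := hGB j (by omega)
  -- the three sums over a cell
  have hbig : ∀ i k : ℕ, j ≤ i → k < nc E.δ i →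
      ∑ n ∈ E.cs R i k, E.big j i n ≤ E.w i + E.w i / 8 := by
    intro i k hi hk
    have a1 := hU j (by omega) i hi k hk
    have a2 := hH j (by omega) i hi k hk
    unfold Env.big
    rw [sum_add_distrib]
    refine (add_le_add a1 a2).trans (le_of_eq ?_)
    split_ifs <;> ring
  have hsm : ∀ i k : ℕ, j ≤ i → k < nc E.δ i →
      ∑ n ∈ E.cs R i k, (1 / (n : ℝ)) * ∏ p ∈ n.primeFactors, (1 + 2 * (p * E.gs j i p)) ≤
        E.w i / 16 := by
    intro i k hi hk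
    refine le_trans (sum_le_sum_of_subset_of_nonneg ?_ ?_) (hS j (by omega) i hi k hk)
    · intro n hn
      unfold Env.cs at hn
      rw [mem_filter] at hn ⊢
      exact ⟨hn.1, hn.2.1⟩
    · intro n _ _
      refine mul_nonneg (by positivity) (prod_nonneg fun p _ => ?_)
      have := mul_nonneg (Nat.cast_nonneg (α := ℝ) p) (E.gs_nonneg j i p (hu0 p) (hh0 p))
      linarith
  have hsq : ∀ i k n : ℕ, n ∈ E.cs R i k → Squarefree n := fun i k n hn => by
    unfold Env.cs at hn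
    exact (mem_filter.1 hn).2.1
  refine ⟨hu0, hh0, ?_, ?_, ?_, fun i k hi hk => hNS j (by omega) i hi k hk⟩
  · intro i k hi hk
    calc ∑ n ∈ E.cs R i k, E.tau j n
        ≤ ∑ n ∈ E.cs R i k, (E.big j i n +
            (1 / (n : ℝ)) * ∏ p ∈ n.primeFactors, (1 + 2 * (p * E.gs j i p))) :=
          sum_le_sum fun n hn => (E.point j i n hu0 hh0 (hsq i k n hn)).1
      _ ≤ (E.w i + E.w i / 8) + E.w i / 16 := by
          rw [sum_add_distrib]
          exact add_le_add (hbig i k hi hk) (hsm i k hi hk)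
      _ ≤ _ := by linarith
  · intro i k hi hk
    have hw := E.w_nonneg i
    calc ∑ n ∈ E.cs R i k, E.mass j n
        ≤ ∑ n ∈ E.cs R i k, (2 * E.big j i n +
            (1 / (n : ℝ)) * ∏ p ∈ n.primeFactors, (1 + 2 * (p * E.gs j i p))) :=
          sum_le_sum fun n hn => (E.point j i n hu0 hh0 (hsq i k n hn)).2.1
      _ ≤ 2 * (E.w i + E.w i / 8) + E.w i / 16 := by
          rw [sum_add_distrib, ← mul_sum]
          exact add_le_add (mul_le_mul_of_nonneg_left (hbig i k hi hk) (by norm_num))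
            (hsm i k hi hk)
      _ ≤ _ := by linarith
  · intro i k hi hk
    calc ∑ n ∈ E.cs R i k, 1 / (n : ℝ)
        ≤ ∑ n ∈ E.cs R i k, (1 / (n : ℝ)) * ∏ p ∈ n.primeFactors, (1 + 2 * (p * E.gs j i p)) := by
          refine sum_le_sum fun n _ => ?_
          have h1 := one_le_prod1 n.primeFactors (fun p => 2 * (p * E.gs j i p)) fun p => by
            have := mul_nonneg (Nat.cast_nonneg (α := ℝ) p) (E.gs_nonneg j i p (hu0 p) (hh0 p))
            linarith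
          have h2 : (0 : ℝ) ≤ 1 / (n : ℝ) := by positivity
          nlinarith
      _ ≤ E.w i / 16 := hsm i k hi hk

/-! ### the first block -/

/-- rough numbers up to `2^j` -/
noncomputable def A0c (R j : ℕ) : Finset ℕ := (Icc 1 (2 ^ j)).filter (fun n => Rough R n)

/-- the Lipschitz coefficients in the first block -/
noncomputable def t0 (j n : ℕ) : ℝ := ∑ p ∈ n.primeFactors, E.g j p * (1 / ((n / p : ℕ) : ℝ))

lemma t0_first (hGB : E.GBounds) (R : ℕ) : ∃ J : ℕ, 3 ≤ J ∧ ∀ j : ℕ, J ≤ j →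
    (E.UB j).Nonempty ∧ (∀ p ∈ E.UB j, p.Prime) ∧
    (∀ p : ℕ, E.g j p ≠ 0 → (2 : ℝ) ^ ((j : ℝ) / 2) ≤ p) ∧
    ∑ n ∈ A0c R j, t0 E j n ≤ 8 * j + 8 * j / 4 := by
  obtain ⟨J, hJ, hGB⟩ := hGB
  refine ⟨J + 3, by omega, fun j hj => ?_⟩
  obtain ⟨hUB, hu0, hh0, hgu, hgh, _, hghq, hsum, _⟩ := hGB j (by omega)
  have hj1 : 1 ≤ j := by omega
  have hjr : (1 : ℝ) ≤ j := by exact_mod_cast hj1
  have hcU := E.hcU
  have hcard : 0 < ((E.UB j).card : ℝ) := lt_of_lt_of_le (by positivity) hUB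
  have hUBp : ∀ p ∈ E.UB j, p.Prime := by
    intro p hp
    unfold Env.UB at hp
    exact E.u_prime p (mem_filter.1 hp).2
  -- every prime with a perturbation is large
  have hlarge : ∀ p : ℕ, E.g j p ≠ 0 → (2 : ℝ) ^ ((j : ℝ) / 2) ≤ p := by
    intro p hp
    by_cases h1 : E.gh j p = 0
    · have h2 : E.gu j p ≠ 0 := by
        intro h2
        apply hp
        unfold Env.g
        rw [h1, h2, add_zero]
      have h3 := (hgu p h2).2
      have h4 : (2 : ℝ) ^ ((j : ℝ) / 2) ≤ (2 : ℝ) ^ (((j - 1 : ℕ) : ℝ)) := by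
        apply Real.rpow_le_rpow_of_exponent_le (by norm_num)
        rw [Nat.cast_sub hj1]
        have : (2 : ℝ) ≤ j := by exact_mod_cast (by omega : 2 ≤ j)
        push_cast
        linarith
      rw [Real.rpow_natCast] at h4
      have h5 : ((2 ^ (j - 1) : ℕ) : ℝ) < p := by exact_mod_cast h3
      push_cast at h5
      linarith
    · exact (hghq p h1).1
  refine ⟨by exact Finset.card_pos.1 (by exact_mod_cast hcard), hUBp, hlarge, ?_⟩
  have hsplit : ∑ n ∈ A0c R j, t0 E j n =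
      ∑ n ∈ A0c R j, ∑ p ∈ n.primeFactors, E.gu j p * (1 / ((n / p : ℕ) : ℝ)) +
      ∑ n ∈ A0c R j, ∑ p ∈ n.primeFactors, E.gh j p * (1 / ((n / p : ℕ) : ℝ)) := by
    rw [← sum_add_distrib]
    refine sum_congr rfl fun n hn => ?_
    unfold t0
    rw [← sum_add_distrib]
    refine sum_congr rfl fun p _ => ?_
    unfold Env.g
    ring
  -- first part
  have hp1 : ∑ n ∈ A0c R j, ∑ p ∈ n.primeFactors, E.gu j p * (1 / ((n / p : ℕ) : ℝ)) ≤ 8 * j := by
    have h1 : ∀ n ∈ A0c R j, ∑ p ∈ n.primeFactors, E.gu j p * (1 / ((n / p : ℕ) : ℝ)) =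
        if n ∈ E.UB j then 8 * j / ((E.UB j).card : ℝ) else 0 := by
      intro n hn
      unfold A0c at hn
      rw [mem_filter, mem_Icc] at hn
      obtain ⟨⟨hn1, hn2⟩, _⟩ := hn
      have hkey : ∀ p ∈ n.primeFactors, E.gu j p ≠ 0 → p = n ∧ n ∈ E.UB j := by
        intro p hp hg
        have hpn := Nat.dvd_of_mem_primeFactors hp
        obtain ⟨hU, hlt⟩ := hgu p hg
        obtain ⟨m, rfl⟩ := hpn
        have hjj : 2 ^ j = 2 * 2 ^ (j - 1) := by
          rw [← pow_succ']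
          congr 1
          omega
        have hm : m = 1 := by
          have hm0 : m ≠ 0 := by rintro rfl; omega
          by_contra hm1
          have : 2 ≤ m := by omega
          nlinarith
        subst hm
        rw [mul_one] at hn2 ⊢
        exact ⟨rfl, by unfold Env.UB; exact mem_filter.2 ⟨mem_Ioc.2 ⟨hlt, hn2⟩, hU⟩⟩
      split_ifs with hmem
      · have hnp := hUBp n hmem
        rw [hnp.primeFactors, sum_singleton, Nat.div_self hnp.pos]
        have hgun : E.gu j n = 8 * j / ((E.UB j).card : ℝ) := by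
          have hmem' := hmem
          unfold Env.UB at hmem'
          rw [mem_filter, mem_Ioc] at hmem'
          unfold Env.gu
          rw [if_pos ⟨hmem'.2, hmem'.1.1⟩, if_pos hmem'.1.2]
        rw [hgun]
        simp
      · refine sum_eq_zero fun p hp => ?_
        by_cases hg : E.gu j p = 0
        · rw [hg, zero_mul]
        · exact absurd (hkey p hp hg).2 hmem
    rw [sum_congr rfl h1, ← sum_filter, sum_const, nsmul_eq_mul]
    have h2 : (((A0c R j).filter (fun n => n ∈ E.UB j)).card : ℝ) ≤ ((E.UB j).card : ℝ) := by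
      exact_mod_cast Finset.card_le_card (fun n hn => (mem_filter.1 hn).2)
    calc (((A0c R j).filter (fun n => n ∈ E.UB j)).card : ℝ) * (8 * j / ((E.UB j).card : ℝ))
        ≤ ((E.UB j).card : ℝ) * (8 * j / ((E.UB j).card : ℝ)) :=
          mul_le_mul_of_nonneg_right h2 (by positivity)
      _ = 8 * j := by field_simp
  -- second part
  have hp2 : ∑ n ∈ A0c R j, ∑ p ∈ n.primeFactors, E.gh j p * (1 / ((n / p : ℕ) : ℝ)) ≤ 2 := by
    have h1 : ∑ n ∈ A0c R j, ∑ p ∈ n.primeFactors, E.gh j p * (1 / ((n / p : ℕ) : ℝ)) ≤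
        ∑ x ∈ (Icc (1 : ℕ) (2 ^ j)) ×ˢ (Icc (1 : ℕ) (2 ^ j)), E.gh j x.1 * (1 / (x.2 : ℝ)) := by
      rw [sum_sigma']
      have hi : Set.InjOn (fun x : (_ : ℕ) × ℕ => ((x.2, x.1 / x.2) : ℕ × ℕ))
          (((A0c R j).sigma fun n => n.primeFactors : Finset ((_ : ℕ) × ℕ)) : Set ((_ : ℕ) × ℕ)) := by
        rintro ⟨n, p⟩ hx ⟨n', p'⟩ hy hxy
        simp only [Finset.coe_sigma, Set.mem_sigma_iff, Finset.mem_coe] at hx hy
        simp only [Prod.mk.injEq] at hxy
        obtain ⟨h1, h2⟩ := hxy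
        subst h1
        have e1 := Nat.div_mul_cancel (Nat.dvd_of_mem_primeFactors hx.2)
        have e2 := Nat.div_mul_cancel (Nat.dvd_of_mem_primeFactors hy.2)
        have : n = n' := by rw [← e1, ← e2, h2]
        subst this
        rfl
      have e : ∑ x ∈ (A0c R j).sigma fun n => n.primeFactors,
            E.gh j x.2 * (1 / ((x.1 / x.2 : ℕ) : ℝ)) =
          ∑ y ∈ ((A0c R j).sigma fun n => n.primeFactors).image
            (fun x : (_ : ℕ) × ℕ => ((x.2, x.1 / x.2) : ℕ × ℕ)), E.gh j y.1 * (1 / (y.2 : ℝ)) := by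
        rw [sum_image hi]
      rw [e]
      refine sum_le_sum_of_subset_of_nonneg ?_ fun x _ _ => mul_nonneg (hh0 _) (by positivity)
      intro y hy
      rw [mem_image] at hy
      obtain ⟨⟨n, p⟩, hx, rfl⟩ := hy
      rw [mem_sigma] at hx
      obtain ⟨hn, hp⟩ := hx
      simp only at hn hp
      unfold A0c at hn
      rw [mem_filter, mem_Icc] at hn
      have hpp := Nat.prime_of_mem_primeFactors hp
      have hpn := Nat.le_of_dvd hn.1.1 (Nat.dvd_of_mem_primeFactors hp)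
      simp only [mem_product, mem_Icc]
      refine ⟨⟨hpp.one_le, hpn.trans hn.1.2⟩, ?_, (Nat.div_le_self _ _).trans hn.1.2⟩
      exact Nat.div_pos hpn hpp.pos
    refine h1.trans ?_
    rw [sum_product]
    simp only
    have h2 : ∑ x ∈ Icc (1 : ℕ) (2 ^ j), ∑ y ∈ Icc (1 : ℕ) (2 ^ j), E.gh j x * (1 / (y : ℝ)) =
        (∑ x ∈ Icc (1 : ℕ) (2 ^ j), E.gh j x) * ∑ y ∈ Icc (1 : ℕ) (2 ^ j), 1 / (y : ℝ) := by
      rw [sum_mul_sum]
    rw [h2]
    have h3 : ∑ x ∈ Icc (1 : ℕ) (2 ^ j), E.gh j x ≤ 1 / j := by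
      refine le_trans (sum_le_sum fun q hq => ?_) (hsum (Icc 1 (2 ^ j)))
      rw [mem_Icc] at hq
      have hq0 : (1 : ℝ) ≤ q := by exact_mod_cast hq.1
      have h4 : (q : ℝ) * (q : ℝ) ^ (-1 + E.τ / 4) = (q : ℝ) ^ (E.τ / 4) := by
        nth_rewrite 1 [← Real.rpow_one (q : ℝ)]
        rw [← Real.rpow_add (by linarith)]
        congr 1
        ring
      have h5 : 1 ≤ (q : ℝ) ^ (E.τ / 4) := Real.one_le_rpow hq0 (by have := E.hτ; positivity)
      calc E.gh j q = E.gh j q * 1 := (mul_one _).symm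
        _ ≤ E.gh j q * (q : ℝ) ^ (E.τ / 4) := mul_le_mul_of_nonneg_left h5 (hh0 q)
        _ = (q * E.gh j q) * (q : ℝ) ^ (-1 + E.τ / 4) := by rw [← h4]; ring
    have h6 := harm_le j
    have h7 : 0 ≤ ∑ x ∈ Icc (1 : ℕ) (2 ^ j), E.gh j x := sum_nonneg fun x _ => hh0 x
    calc (∑ x ∈ Icc (1 : ℕ) (2 ^ j), E.gh j x) * ∑ y ∈ Icc (1 : ℕ) (2 ^ j), 1 / (y : ℝ)
        ≤ (1 / j) * (1 + j) := mul_le_mul h3 h6 (sum_nonneg fun _ _ => by positivity) (by positivity)
      _ = 1 / j + 1 := by field_simp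
      _ ≤ 1 + 1 := by
          have : 1 / (j : ℝ) ≤ 1 := by rw [div_le_one (by linarith)]; exact hjr
          linarith
      _ = 2 := by norm_num
  rw [hsplit]
  linarith

/-- the Lipschitz estimate in the first block -/
lemma first_lip (R j n : ℕ) (hj : 3 ≤ j) (z z' : ℕ × ℕ → ℝ) (ε : ℝ) (hu : ∀ p, 0 ≤ E.gu j p)
    (hh : ∀ p, 0 ≤ E.gh j p) (hz : ∀ i, |z i| ≤ 1) (hz' : ∀ i, |z' i| ≤ 1)
    (hzz : ∀ i, |z i - z' i| ≤ ε)
    (hl : ∀ p : ℕ, E.g j p ≠ 0 → (2 : ℝ) ^ ((j : ℝ) / 2) ≤ p) (hn : n ∈ A0c R j) :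
    |fc E j z n - fc E j z' n| ≤ ε * t0 E j n := by
  have hε : 0 ≤ ε := (abs_nonneg _).trans (hzz (0, 0))
  have hg : ∀ p, 0 ≤ E.g j p := fun p => add_nonneg (hu p) (hh p)
  unfold A0c at hn
  rw [mem_filter, mem_Icc] at hn
  obtain ⟨⟨hn1, hn2⟩, -⟩ := hn
  have hn0 : n ≠ 0 := by omega
  have hterm : ∀ p ∈ n.primeFactors, 0 ≤ E.g j p * (1 / ((n / p : ℕ) : ℝ)) := fun p _ =>
    mul_nonneg (hg p) (by positivity)
  have hgz0 : ∀ (y : ℕ × ℕ → ℝ), (∀ i, |y i| ≤ 1) → ∀ p : ℕ, E.g j p = 0 → E.gz j y p = 0 := by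
    intro y hy p hp
    have := E.gz_le j y 1 hy hu p
    rw [hp, mul_zero] at this
    exact abs_eq_zero.1 (le_antisymm this (abs_nonneg _))
  by_cases hA : ∀ p ∈ n.primeFactors, E.g j p = 0
  · have h1 : fc E j z n = fc E j z' n := by
      unfold fc
      refine cm_congr _ _ n fun p hp => ?_
      rw [hgz0 z hz p (hA p hp), hgz0 z' hz' p (hA p hp)]
    rw [h1, sub_self, abs_zero]
    exact mul_nonneg hε (sum_nonneg hterm)
  · push Not at hA
    obtain ⟨P, hP, hPg⟩ := hA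
    have hPp := Nat.prime_of_mem_primeFactors hP
    obtain ⟨m, hm⟩ := Nat.dvd_of_mem_primeFactors hP
    have hm0 : m ≠ 0 := by
      rintro rfl
      rw [mul_zero] at hm
      exact hn0 hm
    have hml : ∀ p ∈ m.primeFactors, E.g j p = 0 := by
      intro p hp
      by_contra hpg
      have hpd := Nat.dvd_of_mem_primeFactors hp
      have hpp := Nat.prime_of_mem_primeFactors hp
      have h1 := hl p hpg
      have h2 := hl P hPg
      have h3 : (2 : ℝ) ^ ((j : ℝ) / 2) * (2 : ℝ) ^ ((j : ℝ) / 2) = ((2 ^ j : ℕ) : ℝ) := by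
        rw [← Real.rpow_add (by norm_num)]
        push_cast
        rw [← Real.rpow_natCast]
        congr 1
        ring
      have h4 : ((2 ^ j : ℕ) : ℝ) ≤ ((p * P : ℕ) : ℝ) := by
        rw [← h3]
        push_cast
        exact mul_le_mul h1 h2 (by positivity) (by positivity)
      have h5 : 2 ^ j ≤ p * P := by exact_mod_cast h4
      have h6 : p * P ≤ n := by
        rw [hm, mul_comm P m]
        exact Nat.mul_le_mul_right _ (Nat.le_of_dvd (Nat.pos_of_ne_zero hm0) hpd)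
      have h7 : p * P = 2 ^ j := by omega
      have h8 : p = 2 := (Nat.prime_dvd_prime_iff_eq hpp Nat.prime_two).1
        (hpp.dvd_of_dvd_pow ⟨P, h7.symm⟩)
      have h9 : P = 2 := (Nat.prime_dvd_prime_iff_eq hPp Nat.prime_two).1
        (hPp.dvd_of_dvd_pow ⟨p, by rw [← h7]; ring⟩)
      rw [h8, h9] at h7
      have h10 : 2 ^ 3 ≤ 2 ^ j := Nat.pow_le_pow_right (by norm_num) hj
      omega
    have hdiv : n / P = m := by
      rw [hm]
      exact Nat.mul_div_cancel_left m hPp.pos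
    have hmR : (0 : ℝ) < m := by exact_mod_cast Nat.pos_of_ne_zero hm0
    have hval : ∀ y : ℕ × ℕ → ℝ, (∀ i, |y i| ≤ 1) → fc E j y n =
        (E.gz j y P - 1 / (P : ℝ)) * cm (fun p => - (1 / (p : ℝ))) m := by
      intro y hy
      unfold fc
      rw [hm, cm_mul _ hPp.ne_zero hm0, cm_prime _ hPp]
      congr 1
      refine cm_congr _ _ m fun p hp => ?_
      rw [hgz0 y hy p (hml p hp), zero_sub]
    have habs : |cm (fun p => - (1 / (p : ℝ))) m| = 1 / m := by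
      rw [cm_abs, ← cm_inv hm0]
      refine cm_congr _ _ m fun p _ => ?_
      rw [abs_neg, abs_of_nonneg (by positivity)]
    rw [hval z hz, hval z' hz', ← sub_mul, abs_mul, habs]
    have h1 : |E.gz j z P - 1 / (P : ℝ) - (E.gz j z' P - 1 / (P : ℝ))| ≤ ε * E.g j P := by
      have h3 := E.gz_le j (fun i => z i - z' i) ε hzz hu P
      rw [← gz_sub] at h3
      have e : E.gz j z P - 1 / (P : ℝ) - (E.gz j z' P - 1 / (P : ℝ)) = E.gz j z P - E.gz j z' P := by
        ring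
      rw [e]
      exact h3
    have h2 : E.g j P * (1 / ((n / P : ℕ) : ℝ)) ≤ t0 E j n :=
      single_le_sum (f := fun p : ℕ => E.g j p * (1 / ((n / p : ℕ) : ℝ))) hterm hP
    rw [hdiv] at h2
    calc |E.gz j z P - 1 / (P : ℝ) - (E.gz j z' P - 1 / (P : ℝ))| * (1 / (m : ℝ)) ≤
        (ε * E.g j P) * (1 / (m : ℝ)) := mul_le_mul_of_nonneg_right h1 (by positivity)
      _ = ε * (E.g j P * (1 / (m : ℝ))) := by ring
      _ ≤ _ := mul_le_mul_of_nonneg_left h2 hε

end Pool.Agent.U317.CM
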